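import Mathlib

/-!
# Splittings of diagonal Hessians inside the Pucci cone

A state is a multiset of real numbers (the diagonal entries of a Hessian). A state in the cone
`P < R N, N < R P` (`P`, `N` the sums of the positive and negative parts) may be split by moving one
entry to two new values, with weights that keep the mean, as long as the whole segment stays in the
cone. `Good R T s v`: by finitely many splittings of `s` one reaches, with total weight at least `v`,
states which have an entry of absolute value at least `T`.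
-/

set_option autoImplicit false

namespace Pool.Agent.W5h42.Hess

open Multiset

/-- Sum of the positive parts. -/
noncomputable def posSum (s : Multiset ℝ) : ℝ := (s.map (fun x => max x 0)).sum

/-- Sum of the negative parts. -/
noncomputable def negSum (s : Multiset ℝ) : ℝ := (s.map (fun x => max (-x) 0)).sum

/-- The open two-sided Pucci cone. -/
def InK (R : ℝ) (s : Multiset ℝ) : Prop := posSum s < R * negSum s ∧ negSum s < R * posSum s

/-- Reachability of large entries by splittings. -/
inductive Good (R T : ℝ) : Multiset ℝ → ℝ → Prop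
  | leaf (s : Multiset ℝ) (v x : ℝ) (hx : x ∈ s) (hT : T ≤ |x|) (hv : v ≤ 1) : Good R T s v
  | zero (s : Multiset ℝ) (v : ℝ) (hv : v ≤ 0) : Good R T s v
  | split (r : Multiset ℝ) (x b c v₁ v₂ v : ℝ) (hb : b < x) (hc : x < c)
      (hK : ∀ y, b ≤ y → y ≤ c → InK R (y ::ₘ r))
      (h₁ : Good R T (b ::ₘ r) v₁) (h₂ : Good R T (c ::ₘ r) v₂)
      (hv : v * (c - b) ≤ (c - x) * v₁ + (x - b) * v₂) : Good R T (x ::ₘ r) v

lemma posSum_cons (x : ℝ) (s : Multiset ℝ) : posSum (x ::ₘ s) = max x 0 + posSum s := by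
  simp [posSum]

lemma negSum_cons (x : ℝ) (s : Multiset ℝ) : negSum (x ::ₘ s) = max (-x) 0 + negSum s := by
  simp [negSum]

lemma posSum_neg (s : Multiset ℝ) : posSum (s.map Neg.neg) = negSum s := by
  simp [posSum, negSum]

lemma negSum_neg (s : Multiset ℝ) : negSum (s.map Neg.neg) = posSum s := by
  simp [posSum, negSum]

lemma InK.neg {R : ℝ} {s : Multiset ℝ} (h : InK R s) : InK R (s.map Neg.neg) := by
  unfold InK at *
  rw [posSum_neg, negSum_neg]
  exact ⟨h.2, h.1⟩

lemma Good.neg {R T : ℝ} {s : Multiset ℝ} {v : ℝ} (h : Good R T s v) :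
    Good R T (s.map Neg.neg) v := by
  induction h with
  | leaf s v x hx hT hv =>
    exact Good.leaf _ _ (-x) (Multiset.mem_map_of_mem _ hx) (by rwa [abs_neg]) hv
  | zero s v hv => exact Good.zero _ _ hv
  | split r x b c v₁ v₂ v hb hc hK h₁ h₂ hv ih₁ ih₂ =>
    rw [Multiset.map_cons] at *
    refine Good.split _ (-x) (-c) (-b) v₂ v₁ v (by linarith) (by linarith) ?_ ?_ ?_ (by linarith)
    · intro y hy1 hy2
      have := (hK (-y) (by linarith) (by linarith)).neg
      rwa [Multiset.map_cons, neg_neg] at this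
    · simpa using ih₂
    · simpa using ih₁

/-- The state with positive entries `Y, Y/2, ...` (`p` of them) and negative entries
`-X, -X/2, ...` (`q` of them). -/
noncomputable def st (X Y : ℝ) (p q : ℕ) : Multiset ℝ :=
  (Multiset.range p).map (fun k => Y / 2 ^ k) + (Multiset.range q).map (fun k => -(X / 2 ^ k))

lemma range_succ_map (f : ℕ → ℝ) (p : ℕ) :
    (Multiset.range (p + 1)).map f = f 0 ::ₘ (Multiset.range p).map (fun k => f (k + 1)) := by
  induction p with
  | zero => simp
  | succ p ih =>
    rw [Multiset.range_succ, Multiset.map_cons, ih, Multiset.range_succ, Multiset.map_cons,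
      Multiset.cons_swap]

lemma st_succ_left (X Y : ℝ) (p q : ℕ) : st X Y (p + 1) q = (Y / 2 ^ p) ::ₘ st X Y p q := by
  simp [st, Multiset.range_succ]

lemma st_succ_right (X Y : ℝ) (p q : ℕ) : st X Y p (q + 1) = (-(X / 2 ^ q)) ::ₘ st X Y p q := by
  simp [st, Multiset.range_succ]

lemma cons_two_Y (X Y : ℝ) (p q : ℕ) : (2 * Y) ::ₘ st X Y p q = st X (2 * Y) (p + 1) q := by
  have h : (Multiset.range p).map (fun k => 2 * Y / 2 ^ (k + 1)) =
      (Multiset.range p).map (fun k => Y / 2 ^ k) := by
    apply Multiset.map_congr rfl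
    intro k _
    rw [pow_succ]
    field_simp
  unfold st
  rw [range_succ_map, Multiset.cons_add, h, pow_zero, div_one]

lemma cons_two_X (X Y : ℝ) (p q : ℕ) : (-(2 * X)) ::ₘ st X Y p q = st (2 * X) Y p (q + 1) := by
  have h : (Multiset.range q).map (fun k => -(2 * X / 2 ^ (k + 1))) =
      (Multiset.range q).map (fun k => -(X / 2 ^ k)) := by
    apply Multiset.map_congr rfl
    intro k _
    rw [pow_succ]
    field_simp
  unfold st
  rw [range_succ_map, Multiset.add_cons, h, pow_zero, div_one]

lemma st_neg (X Y : ℝ) (p q : ℕ) : (st X Y p q).map Neg.neg = st Y X q p := by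
  unfold st
  rw [Multiset.map_add, Multiset.map_map, Multiset.map_map, add_comm]
  congr 1
  apply Multiset.map_congr rfl
  intro k _
  simp

lemma posSum_st {X Y : ℝ} (hX : 0 < X) (hY : 0 < Y) (p q : ℕ) :
    posSum (st X Y p q) = 2 * Y - 2 * Y / 2 ^ p := by
  induction p with
  | zero =>
    induction q with
    | zero => simp [st, posSum]
    | succ q ih =>
      rw [st_succ_right, posSum_cons, ih]
      have : 0 ≤ X / 2 ^ q := by positivity
      rw [max_eq_right (by linarith)]
      ring
  | succ p ih =>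
    rw [st_succ_left, posSum_cons, ih]
    have : 0 ≤ Y / 2 ^ p := by positivity
    rw [max_eq_left this, pow_succ]
    field_simp
    ring

lemma negSum_st {X Y : ℝ} (hX : 0 < X) (hY : 0 < Y) (p q : ℕ) :
    negSum (st X Y p q) = 2 * X - 2 * X / 2 ^ q := by
  rw [← posSum_neg, st_neg, posSum_st hY hX]

lemma half_pow_le {p : ℕ} (hp : 1 ≤ p) {Y : ℝ} (hY : 0 < Y) : 2 * Y / 2 ^ p ≤ Y := by
  rw [div_le_iff₀ (by positivity)]
  have h : (2 : ℝ) ^ 1 ≤ 2 ^ p := pow_le_pow_right₀ (by norm_num) hp
  nlinarith

/-- The segment used by both moves is in the cone. -/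
lemma inK_move {R X Y : ℝ} (hX : 0 < X) (hY : 0 < Y) {p q : ℕ} (hp : 1 ≤ p) (hq : 1 ≤ q)
    (h1 : 4 * Y ≤ R * X) (h2 : 4 * X ≤ R * Y) (y : ℝ) (hy1 : -(2 * X) ≤ y) (hy2 : y ≤ 2 * Y) :
    InK R (y ::ₘ st X Y p q) := by
  have hR : 0 < R := by
    by_contra hcon
    push Not at hcon
    nlinarith
  have e1 := half_pow_le hp hY
  have e2 := half_pow_le hq hX
  have e3 : 0 < 2 * Y / 2 ^ p := by positivity
  have e4 : 0 < 2 * X / 2 ^ q := by positivity
  unfold InK
  rw [posSum_cons, negSum_cons, posSum_st hX hY, negSum_st hX hY]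
  have f1 : max y 0 ≤ 2 * Y := max_le hy2 (by linarith)
  have f2 : max (-y) 0 ≤ 2 * X := max_le (by linarith) (by linarith)
  have f3 : 0 ≤ max y 0 := le_max_right _ _
  have f4 : 0 ≤ max (-y) 0 := le_max_right _ _
  constructor
  · have : R * X ≤ R * (max (-y) 0 + (2 * X - 2 * X / 2 ^ q)) :=
      mul_le_mul_of_nonneg_left (by linarith) hR.le
    linarith
  · have : R * Y ≤ R * (max y 0 + (2 * Y - 2 * Y / 2 ^ p)) :=
      mul_le_mul_of_nonneg_left (by linarith) hR.le
    linarith

end Pool.Agent.W5h42.Hess
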