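import Pool.Agent.W5h42.Hess.Chain

/-!
# The survival probability of the splitting chain
-/

set_option autoImplicit false

namespace Pool.Agent.W5h42.Hess

/-- Loss function of a state with ratio `t ≥ 1`, `p` entries of the large sign, `q` of the small. -/
noncomputable def ff (B D t : ℝ) (p q : ℕ) : ℝ :=
  if q = 1 then t ^ p + D * t ^ (p - 1) else B ^ q * t ^ p

/-- Loss function of the state `st X Y p q`. -/
noncomputable def Lf (κ B D X Y : ℝ) (p q : ℕ) : ℝ :=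
  κ * (if X ≤ Y then ff B D (Y / X) p q else ff B D (X / Y) q p)

lemma half_pow_bound {t : ℝ} (ht : 0 ≤ t) {p : ℕ} (hp : 1 ≤ p) : (t / 2) ^ p ≤ t ^ p / 2 := by
  obtain ⟨k, rfl⟩ : ∃ k, p = k + 1 := ⟨p - 1, by omega⟩
  rw [div_pow]
  have h1 : (1 : ℝ) ≤ 2 ^ k := one_le_pow₀ (by norm_num)
  have h2 : 0 ≤ t ^ (k + 1) := by positivity
  rw [div_le_div_iff₀ (by positivity) (by norm_num), pow_succ 2 k]
  nlinarith

lemma ineq_N {B t θ : ℝ} {p q : ℕ} (hp : 1 ≤ p) (hB : (2 : ℝ) ^ (p + 2) ≤ B) (ht : 1 ≤ t)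
    (hθ0 : 0 ≤ θ) (hθ1 : θ ≤ 1) :
    (2 * t + θ) * (B ^ (q + 1) * (t / 2) ^ p) + (2 - θ) * (B ^ q * (2 * t) ^ (p + 1)) ≤
      (2 * t + 2) * (B ^ (q + 1) * t ^ p) := by
  have hB0 : 0 < B := lt_of_lt_of_le (by positivity) hB
  have h1 := half_pow_bound (show (0:ℝ) ≤ t by linarith) hp
  set M := B ^ q * t ^ p with hM
  have hM0 : 0 ≤ M := by positivity
  have e1 : B ^ (q + 1) * (t / 2) ^ p ≤ B * M / 2 := by
    calc B ^ (q + 1) * (t / 2) ^ p ≤ B ^ (q + 1) * (t ^ p / 2) := by gcongr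
      _ = B * M / 2 := by rw [hM, pow_succ]; ring
  have e2 : B ^ q * (2 * t) ^ (p + 1) = 2 ^ (p + 2) * (t * M) / 2 := by
    rw [hM, mul_pow, pow_succ 2 (p + 1), pow_succ t p]; ring
  have e3 : B ^ (q + 1) * t ^ p = B * M := by rw [hM, pow_succ]; ring
  rw [e2, e3]
  have e4 : (2 * t + θ) * (B ^ (q + 1) * (t / 2) ^ p) ≤ (2 * t + 1) * (B * M / 2) := by
    apply mul_le_mul (by linarith) e1 (by positivity) (by linarith)
  have e5 : 2 ^ (p + 2) * (t * M) ≤ B * (t * M) := by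
    apply mul_le_mul_of_nonneg_right hB (by positivity)
  have e6 : (2 - θ) * (2 ^ (p + 2) * (t * M) / 2) ≤ 2 * (2 ^ (p + 2) * (t * M) / 2) := by
    apply mul_le_mul_of_nonneg_right (by linarith) (by positivity)
  have e7 : 0 ≤ B * M := by positivity
  nlinarith

lemma ineq_N1 {B D t θ : ℝ} {p : ℕ} (hp : 1 ≤ p) (hB0 : 0 < B) (hB : (2 : ℝ) ^ (p + 3) ≤ B ^ 2)
    (ht : 1 ≤ t) (hD : 0 ≤ D) (hDt : D ≤ t) (hθ0 : 0 ≤ θ) (hθ1 : θ ≤ 1) :
    (2 * t + θ) * (B ^ 2 * (t / 2) ^ p) + (2 - θ) * ((2 * t) ^ (p + 1) + D * (2 * t) ^ p) ≤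
      (2 * t + 2) * (B ^ 2 * t ^ p) := by
  have h1 := half_pow_bound (show (0:ℝ) ≤ t by linarith) hp
  have e1 : B ^ 2 * (t / 2) ^ p ≤ B ^ 2 * (t ^ p / 2) := by gcongr
  have e4 : (2 * t + θ) * (B ^ 2 * (t / 2) ^ p) ≤ (2 * t + 1) * (B ^ 2 * (t ^ p / 2)) := by
    apply mul_le_mul (by linarith) e1 (by positivity) (by linarith)
  have e5 : (2 * t) ^ (p + 1) + D * (2 * t) ^ p = 2 ^ p * t ^ p * (2 * t + D) := by
    rw [pow_succ, mul_pow]; ring
  have e6 : 2 ^ p * t ^ p * (2 * t + D) ≤ 2 ^ p * t ^ p * (3 * t) := by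
    apply mul_le_mul_of_nonneg_left (by linarith) (by positivity)
  have e7 : (2 - θ) * ((2 * t) ^ (p + 1) + D * (2 * t) ^ p) ≤ 2 * (2 ^ p * t ^ p * (3 * t)) := by
    rw [e5]
    apply mul_le_mul (by linarith) e6 (by positivity) (by norm_num)
  have e8 : (2:ℝ) ^ (p + 3) * (t ^ p * t) ≤ B ^ 2 * (t ^ p * t) := by
    apply mul_le_mul_of_nonneg_right hB (by positivity)
  have e9 : (2:ℝ) ^ (p + 3) = 8 * 2 ^ p := by rw [pow_add]; norm_num; ring
  rw [e9] at e8
  have e10 : 0 ≤ B ^ 2 * t ^ p := by positivity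
  have e11 : 0 ≤ 2 ^ p * (t ^ p * t) := by positivity
  nlinarith

lemma ineq_P {B D t : ℝ} {k : ℕ} (hk : 1 ≤ k) (ht : 1 ≤ t)
    (hD : 2 * (B ^ 2 + 2 ^ (k + 2)) ≤ D) (hDt : D ≤ t) :
    t * (2 - 1 / 2 ^ k) * (B ^ 2 * (t / 2) ^ k) +
      (2 + t * (1 / 2 ^ k)) * ((2 * t) ^ (k + 1) + D * (2 * t) ^ k) ≤
      (2 * t + 2) * (t ^ (k + 1) + D * t ^ k) := by
  have h1 := half_pow_bound (show (0:ℝ) ≤ t by linarith) hk
  have hk0 : (0:ℝ) < 2 ^ k := by positivity
  have hD0 : 0 ≤ D := le_trans (by positivity) hD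
  have h2 : (0:ℝ) ≤ 1 / 2 ^ k := by positivity
  have h3 : (1:ℝ) / 2 ^ k ≤ 1 := by
    rw [div_le_one hk0]; exact one_le_pow₀ (by norm_num)
  have e1 : t * (2 - 1 / 2 ^ k) * (B ^ 2 * (t / 2) ^ k) ≤ t * 2 * (B ^ 2 * (t ^ k / 2)) := by
    apply mul_le_mul
    · apply mul_le_mul_of_nonneg_left (by linarith) (by linarith)
    · exact mul_le_mul_of_nonneg_left h1 (by positivity)
    · positivity
    · positivity
  have e2 : (2 + t * (1 / 2 ^ k)) * ((2 * t) ^ (k + 1) + D * (2 * t) ^ k) =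
      t ^ k * ((2 ^ (k + 1) + t) * (2 * t + D)) := by
    rw [pow_succ (2 * t), mul_pow, pow_succ 2 k]
    field_simp
  have e3 : (2 * t + 2) * (t ^ (k + 1) + D * t ^ k) = t ^ k * ((2 * t + 2) * (t + D)) := by
    rw [pow_succ]; ring
  rw [e2, e3]
  have e4 : (2:ℝ) ^ (k + 2) = 2 * 2 ^ (k + 1) := by rw [pow_succ]; ring
  rw [e4] at hD
  have e5 : (0:ℝ) < 2 ^ (k + 1) := by positivity
  have e6 : t * B ^ 2 + (2 ^ (k + 1) + t) * (2 * t + D) ≤ (2 * t + 2) * (t + D) := by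
    have f1 : t * (2 * (B ^ 2 + 2 * 2 ^ (k + 1))) ≤ t * D :=
      mul_le_mul_of_nonneg_left hD (by linarith)
    have f2 : (2:ℝ) ^ (k + 1) * D ≤ t / 4 * D := by
      apply mul_le_mul_of_nonneg_right _ hD0
      nlinarith [sq_nonneg B]
    nlinarith
  have e7 : t ^ k * (t * B ^ 2 + (2 ^ (k + 1) + t) * (2 * t + D)) ≤
      t ^ k * ((2 * t + 2) * (t + D)) := mul_le_mul_of_nonneg_left e6 (by positivity)
  calc t * (2 - 1 / 2 ^ k) * (B ^ 2 * (t / 2) ^ k) + t ^ k * ((2 ^ (k + 1) + t) * (2 * t + D))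
      ≤ t * 2 * (B ^ 2 * (t ^ k / 2)) + t ^ k * ((2 ^ (k + 1) + t) * (2 * t + D)) := by linarith
    _ = t ^ k * (t * B ^ 2 + (2 ^ (k + 1) + t) * (2 * t + D)) := by ring
    _ ≤ _ := e7

lemma ff_nonneg {B D t : ℝ} (hB : 0 ≤ B) (hD : 0 ≤ D) (ht : 0 ≤ t) (p q : ℕ) :
    0 ≤ ff B D t p q := by
  unfold ff; split_ifs <;> positivity

lemma ff_le {B D t M : ℝ} {n p q : ℕ} (hB : 1 ≤ B) (hD : 0 ≤ D) (ht : 0 ≤ t) (htM : t ≤ M)
    (hM : 1 ≤ M) (hp : p ≤ n) (hq : q ≤ n) : ff B D t p q ≤ (1 + D + B ^ n) * M ^ n := by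
  have h1 : t ^ p ≤ M ^ n := (pow_le_pow_left₀ ht htM p).trans (pow_le_pow_right₀ hM hp)
  have h2 : t ^ (p - 1) ≤ M ^ n :=
    (pow_le_pow_left₀ ht htM (p - 1)).trans (pow_le_pow_right₀ hM (by omega))
  have h3 : B ^ q ≤ B ^ n := pow_le_pow_right₀ hB hq
  have h4 : 0 ≤ M ^ n := by positivity
  have h5 : 0 ≤ B ^ n := by positivity
  unfold ff
  split_ifs
  · have : D * t ^ (p - 1) ≤ D * M ^ n := mul_le_mul_of_nonneg_left h2 hD
    nlinarith [mul_nonneg h5 h4]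
  · have : B ^ q * t ^ p ≤ B ^ n * M ^ n := mul_le_mul h3 h1 (by positivity) h5
    nlinarith [mul_nonneg hD h4]

lemma Lf_nonneg {κ B D X Y : ℝ} (hκ : 0 ≤ κ) (hB : 0 ≤ B) (hD : 0 ≤ D) (hX : 0 < X) (hY : 0 < Y)
    (p q : ℕ) : 0 ≤ Lf κ B D X Y p q := by
  unfold Lf
  apply mul_nonneg hκ
  split_ifs
  · exact ff_nonneg hB hD (by positivity) _ _
  · exact ff_nonneg hB hD (by positivity) _ _

lemma Lf_le {κ B D X Y M : ℝ} {n p q : ℕ} (hκ : 0 ≤ κ) (hB : 1 ≤ B) (hD : 0 ≤ D) (hX : 0 < X)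
    (hY : 0 < Y) (hM : 1 ≤ M) (h1 : Y ≤ M * X) (h2 : X ≤ M * Y) (hp : p ≤ n) (hq : q ≤ n) :
    Lf κ B D X Y p q ≤ κ * ((1 + D + B ^ n) * M ^ n) := by
  unfold Lf
  apply mul_le_mul_of_nonneg_left _ hκ
  split_ifs
  · exact ff_le hB hD (by positivity) (by rwa [div_le_iff₀ hX]) hM hp hq
  · exact ff_le hB hD (by positivity) (by rwa [div_le_iff₀ hY]) hM hq hp

/-- The state can be moved (the segments of its moves are in the cone). -/
def Alive (R X Y : ℝ) (p q : ℕ) : Prop :=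
  (X ≤ Y → 4 * Y * 2 ^ (q - 1) ≤ R * X) ∧ (Y ≤ X → 4 * X * 2 ^ (p - 1) ≤ R * Y)

lemma combine {R T : ℝ} {r : Multiset ℝ} {x b c w L L₁ L₂ ε : ℝ} (hw : 0 ≤ w)
    (hb : b < x) (hc : x < c) (hK : ∀ y, b ≤ y → y ≤ c → InK R (y ::ₘ r))
    (h₁ : Good R T (b ::ₘ r) (w * (1 - L₁))) (h₂ : Good R T (c ::ₘ r) (w * (1 - L₂)))
    (h : (c - x) * L₁ + (x - b) * L₂ ≤ (c - b) * (L + ε * (1 - L))) :
    Good R T (x ::ₘ r) (w * (1 - ε) * (1 - L)) := by
  refine Good.split r x b c _ _ _ hb hc hK h₁ h₂ ?_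
  have h3 := mul_le_mul_of_nonneg_left h hw
  nlinarith

/-- Constants. -/
noncomputable def BB (n : ℕ) : ℝ := 2 ^ (n + 2)
noncomputable def DD (n : ℕ) : ℝ := 2 ^ (2 * n + 6)
noncomputable def C1 (n : ℕ) : ℝ := (1 + DD n + BB n ^ n) * (2 * DD n) ^ n

lemma BB_sq (n : ℕ) : BB n ^ 2 = 2 ^ (2 * n + 4) := by
  rw [BB, ← pow_mul]; congr 1; ring

lemma one_le_BB (n : ℕ) : 1 ≤ BB n := one_le_pow₀ (by norm_num)
lemma one_le_DD (n : ℕ) : 1 ≤ DD n := one_le_pow₀ (by norm_num)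
lemma two_le_DD (n : ℕ) : 2 ≤ DD n := by
  unfold DD
  calc (2:ℝ) = 2 ^ 1 := by norm_num
    _ ≤ 2 ^ (2 * n + 6) := pow_le_pow_right₀ (by norm_num) (by omega)

lemma C1_pos (n : ℕ) : 0 < C1 n := by
  have := one_le_BB n
  have := one_le_DD n
  unfold C1; positivity

lemma Lf_of_le {κ B D X Y : ℝ} {p q : ℕ} (h : X ≤ Y) :
    Lf κ B D X Y p q = κ * ff B D (Y / X) p q := by
  unfold Lf; rw [if_pos h]

/-- The inequality needed in the inner region. -/
lemma inner_ineq {x b c L L₁ L₂ ε : ℝ} (hb : b < x) (hc : x < c) (hε : 0 ≤ ε) (hε1 : ε ≤ 1)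
    (hL0 : 0 ≤ L) (hL : L ≤ ε / 2) (hL₁ : L₁ ≤ ε / 2) (hL₂ : L₂ ≤ ε / 2) :
    (c - x) * L₁ + (x - b) * L₂ ≤ (c - b) * (L + ε * (1 - L)) := by
  have h1 : (c - x) * L₁ ≤ (c - x) * (ε / 2) := mul_le_mul_of_nonneg_left hL₁ (by linarith)
  have h2 : (x - b) * L₂ ≤ (x - b) * (ε / 2) := mul_le_mul_of_nonneg_left hL₂ (by linarith)
  have h3 : ε / 2 ≤ L + ε * (1 - L) := by nlinarith
  have h4 : (c - b) * (ε / 2) ≤ (c - b) * (L + ε * (1 - L)) :=
    mul_le_mul_of_nonneg_left h3 (by linarith)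
  nlinarith

/-- The inequality needed in the outer region. -/
lemma outer_ineq {x b c L L₁ L₂ ε : ℝ} (hbc : b < c) (hε : 0 ≤ ε) (hL1 : L ≤ 1)
    (h : (c - x) * L₁ + (x - b) * L₂ ≤ (c - b) * L) :
    (c - x) * L₁ + (x - b) * L₂ ≤ (c - b) * (L + ε * (1 - L)) := by
  have : 0 ≤ (c - b) * (ε * (1 - L)) := by
    apply mul_nonneg (by linarith) (mul_nonneg hε (by linarith))
  nlinarith

set_option maxHeartbeats 1000000 in
/-- One step of the chain from a state with `X ≤ Y`. -/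
lemma step {n : ℕ} {R T κ ε w : ℝ} (hn : 3 ≤ n) (hR : 2 ^ (n + 4) ≤ R)
    (hκ : κ = (4 / R) ^ (n - 1)) (hε : ε = 2 * (κ * C1 n)) (hε1 : ε ≤ 1) (hw : 0 ≤ w)
    {X Y : ℝ} {p q : ℕ} (hX : 0 < X) (hY : 0 < Y) (hp : 1 ≤ p) (hq : 1 ≤ q) (hpq : p + q = n)
    (hA : Alive R X Y p q) (hXY : X ≤ Y)
    (IH : ∀ (X' Y' : ℝ) (p' q' : ℕ), 0 < X' → 0 < Y' → 1 ≤ p' → 1 ≤ q' → p' + q' = n →
      Alive R X' Y' p' q' → X' * Y' = 2 * (X * Y) →
      Good R T (st X' Y' p' q') (w * (1 - Lf κ (BB n) (DD n) X' Y' p' q'))) :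
    Good R T (st X Y p q) (w * (1 - ε) * (1 - Lf κ (BB n) (DD n) X Y p q)) := by
  have hR16 : (16 : ℝ) ≤ R := by
    refine le_trans ?_ hR
    rw [pow_add]
    have : (1:ℝ) ≤ 2 ^ n := one_le_pow₀ (by norm_num)
    linarith
  have hR0 : 0 < R := by linarith
  have hκ0 : 0 ≤ κ := by rw [hκ]; positivity
  have hε0 : 0 ≤ ε := by
    have := C1_pos n
    rw [hε]; positivity
  have hB1 := one_le_BB n
  have hD1 := one_le_DD n
  have hD2 := two_le_DD n
  by_cases hL : 1 ≤ Lf κ (BB n) (DD n) X Y p q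
  · refine Good.zero _ _ (mul_nonpos_of_nonneg_of_nonpos ?_ (by linarith))
    exact mul_nonneg hw (by linarith)
  push Not at hL
  have hL0 : 0 ≤ Lf κ (BB n) (DD n) X Y p q := Lf_nonneg hκ0 (by linarith) (by linarith) hX hY _ _
  have hbound : ∀ (X' Y' : ℝ) (p' q' : ℕ), 0 < X' → 0 < Y' → Y' ≤ 2 * DD n * X' →
      X' ≤ 2 * DD n * Y' → p' ≤ n → q' ≤ n → Lf κ (BB n) (DD n) X' Y' p' q' ≤ ε / 2 := by
    intro X' Y' p' q' h1 h2 h3 h4 h5 h6
    refine (Lf_le hκ0 hB1 (by linarith) h1 h2 (by linarith) h3 h4 h5 h6).trans ?_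
    rw [hε, C1]
    linarith
  have hA1 := hA.1 hXY
  have hq1 : (1:ℝ) ≤ 2 ^ (q - 1) := one_le_pow₀ (by norm_num)
  have h4Y : 4 * Y ≤ R * X := by nlinarith
  have h4X : 4 * X ≤ R * Y := by nlinarith
  rcases Nat.lt_or_ge 1 q with hq2 | hq2
  · -- move the smallest negative entry
    obtain ⟨s, rfl⟩ : ∃ s, q = s + 1 := ⟨q - 1, by omega⟩
    have hs : 1 ≤ s := by omega
    rw [st_succ_right]
    have h2s : (1:ℝ) ≤ 2 ^ s := one_le_pow₀ (by norm_num)
    have hXs : X / 2 ^ s ≤ X := div_le_self hX.le h2s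
    have hXs0 : 0 < X / 2 ^ s := by positivity
    have hb : -(2 * X) < -(X / 2 ^ s) := by linarith
    have hc : -(X / 2 ^ s) < 2 * Y := by linarith
    have hA1' : 4 * Y * 2 ^ s ≤ R * X := by simpa using hA1
    refine combine (b := -(2 * X)) (c := 2 * Y) (L₁ := Lf κ (BB n) (DD n) (2 * X) Y p (s + 1))
      (L₂ := Lf κ (BB n) (DD n) X (2 * Y) (p + 1) s) hw hb hc
      (fun y hy1 hy2 => inK_move hX hY hp hs h4Y h4X y hy1 hy2) ?_ ?_ ?_
    · rw [cons_two_X]
      refine IH _ _ _ _ (by linarith) hY hp (by omega) hpq ⟨fun h => ?_, fun h => ?_⟩ (by ring)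
      · simp only [Nat.add_sub_cancel]
        nlinarith
      · have h5 : (2:ℝ) ^ (p - 1) * 8 ≤ R := by
          refine le_trans ?_ hR
          rw [show (8:ℝ) = 2 ^ 3 by norm_num, ← pow_add]
          exact pow_le_pow_right₀ (by norm_num) (by omega)
        have h6 : (2:ℝ) ^ (p - 1) * 8 * Y ≤ R * Y := mul_le_mul_of_nonneg_right h5 hY.le
        have h7 : 0 < (2:ℝ) ^ (p - 1) := by positivity
        nlinarith
    · rw [cons_two_Y]
      refine IH _ _ _ _ hX (by linarith) (by omega) hs (by omega) ⟨fun h => ?_, fun h => ?_⟩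
        (by ring)
      · obtain ⟨s', rfl⟩ : ∃ s', s = s' + 1 := ⟨s - 1, by omega⟩
        simp only [Nat.add_sub_cancel]
        rw [pow_succ] at hA1'
        linarith
      · linarith
    · by_cases ht : DD n * X ≤ Y
      · -- outer region
        apply outer_ineq (by linarith) hε0 hL.le
        have h2XY : 2 * X ≤ Y := by nlinarith
        rw [Lf_of_le hXY, Lf_of_le h2XY, Lf_of_le (show X ≤ 2 * Y by linarith)]
        set t := Y / X with htdef
        have hYt : Y = t * X := by rw [htdef]; field_simp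
        have hDt : DD n ≤ t := by rw [htdef, le_div_iff₀ hX]; exact ht
        have e1 : Y / (2 * X) = t / 2 := by rw [hYt]; field_simp
        have e2 : 2 * Y / X = 2 * t := by rw [hYt]; field_simp
        rw [e1, e2]
        have ht1 : 1 ≤ t := by linarith
        have hθ0 : (0:ℝ) ≤ 1 / 2 ^ s := by positivity
        have hθ1 : (1:ℝ) / 2 ^ s ≤ 1 := by rw [div_le_one (by positivity)]; exact h2s
        have key : (2 * t + 1 / 2 ^ s) * ff (BB n) (DD n) (t / 2) p (s + 1) +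
            (2 - 1 / 2 ^ s) * ff (BB n) (DD n) (2 * t) (p + 1) s ≤
            (2 * t + 2) * ff (BB n) (DD n) t p (s + 1) := by
          unfold ff
          rw [if_neg (show s + 1 ≠ 1 by omega), if_neg (show s + 1 ≠ 1 by omega)]
          by_cases hs1 : s = 1
          · subst hs1
            rw [if_pos rfl, Nat.add_sub_cancel]
            refine ineq_N1 hp (by linarith) ?_ ht1 (by linarith) hDt hθ0 hθ1
            rw [BB_sq]
            exact pow_le_pow_right₀ (by norm_num) (by omega)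
          · rw [if_neg hs1]
            refine ineq_N hp ?_ ht1 hθ0 hθ1
            unfold BB
            exact pow_le_pow_right₀ (by norm_num) (by omega)
        have e3 : 2 * Y - -(X / 2 ^ s) = X * (2 * t + 1 / 2 ^ s) := by rw [hYt]; ring
        have e4 : -(X / 2 ^ s) - -(2 * X) = X * (2 - 1 / 2 ^ s) := by ring
        have e5 : 2 * Y - -(2 * X) = X * (2 * t + 2) := by rw [hYt]; ring
        rw [e3, e4, e5]
        have := mul_le_mul_of_nonneg_left key (mul_nonneg hX.le hκ0)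
        nlinarith
      · push Not at ht
        have hDX : 0 < DD n * X := mul_pos (by linarith) hX
        have hDY : Y ≤ DD n * Y := le_mul_of_one_le_left hY.le hD1
        refine inner_ineq hb hc hε0 hε1 hL0 ?_ ?_ ?_
        · exact hbound _ _ _ _ hX hY (by linarith) (by linarith) (by omega) (by omega)
        · exact hbound _ _ _ _ (by linarith) hY (by linarith) (by linarith) (by omega) (by omega)
        · exact hbound _ _ _ _ hX (by linarith) (by linarith) (by linarith) (by omega) (by omega)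
  · -- `q = 1`: move the smallest positive entry
    obtain rfl : q = 1 := by omega
    obtain ⟨k, rfl⟩ : ∃ k, p = k + 1 := ⟨p - 1, by omega⟩
    have hk : 1 ≤ k := by omega
    rw [st_succ_left]
    have h2k : (1:ℝ) ≤ 2 ^ k := one_le_pow₀ (by norm_num)
    have hYk : Y / 2 ^ k ≤ Y := div_le_self hY.le h2k
    have hYk0 : 0 < Y / 2 ^ k := by positivity
    have hb : -(2 * X) < Y / 2 ^ k := by linarith
    have hc : Y / 2 ^ k < 2 * Y := by linarith
    have hnk : n = k + 2 := by omega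
    refine combine (b := -(2 * X)) (c := 2 * Y) (L₁ := Lf κ (BB n) (DD n) (2 * X) Y k 2)
      (L₂ := Lf κ (BB n) (DD n) X (2 * Y) (k + 1) 1) hw hb hc
      (fun y hy1 hy2 => inK_move hX hY hk le_rfl h4Y h4X y hy1 hy2) ?_ ?_ ?_
    · rw [cons_two_X]
      refine IH _ _ _ _ (by linarith) hY hk (by omega) (by omega) ⟨fun h => ?_, fun h => ?_⟩ (by ring)
      · norm_num
        nlinarith
      · have h5 : (2:ℝ) ^ (k - 1) * 8 ≤ R := by
          refine le_trans ?_ hR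
          rw [show (8:ℝ) = 2 ^ 3 by norm_num, ← pow_add]
          exact pow_le_pow_right₀ (by norm_num) (by omega)
        have h6 : (2:ℝ) ^ (k - 1) * 8 * Y ≤ R * Y := mul_le_mul_of_nonneg_right h5 hY.le
        have h7 : 0 < (2:ℝ) ^ (k - 1) := by positivity
        nlinarith
    · rw [cons_two_Y]
      by_cases h8 : 8 * Y ≤ R * X
      · refine IH _ _ _ _ hX (by linarith) (by omega) le_rfl (by omega)
          ⟨fun h => ?_, fun h => ?_⟩ (by ring)
        · norm_num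
          linarith
        · linarith
      · push Not at h8
        refine Good.zero _ _ (mul_nonpos_of_nonneg_of_nonpos hw ?_)
        rw [Lf_of_le (show X ≤ 2 * Y by linarith)]
        unfold ff
        rw [if_pos rfl, hκ, hnk]
        simp only [Nat.add_sub_cancel, show k + 2 - 1 = k + 1 by omega]
        have h9 : R / 4 ≤ 2 * Y / X := by
          rw [div_le_div_iff₀ (by norm_num) hX]
          linarith
        have h10 : (1:ℝ) ≤ (4 / R) ^ (k + 1) * (2 * Y / X) ^ (k + 1) := by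
          rw [← mul_pow]
          apply one_le_pow₀
          calc (1:ℝ) = 4 / R * (R / 4) := by field_simp
            _ ≤ 4 / R * (2 * Y / X) := by gcongr
        have h11 : 0 ≤ (4 / R) ^ (k + 1) * (DD (k + 2) * (2 * Y / X) ^ k) := by
          have := one_le_DD (k + 2)
          positivity
        nlinarith
    · by_cases ht : DD n * X ≤ Y
      · apply outer_ineq (by linarith) hε0 hL.le
        have h2XY : 2 * X ≤ Y := by nlinarith
        rw [Lf_of_le hXY, Lf_of_le h2XY, Lf_of_le (show X ≤ 2 * Y by linarith)]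
        set t := Y / X with htdef
        have hYt : Y = t * X := by rw [htdef]; field_simp
        have hDt : DD n ≤ t := by rw [htdef, le_div_iff₀ hX]; exact ht
        have e1 : Y / (2 * X) = t / 2 := by rw [hYt]; field_simp
        have e2 : 2 * Y / X = 2 * t := by rw [hYt]; field_simp
        rw [e1, e2]
        have ht1 : 1 ≤ t := by linarith
        have key : t * (2 - 1 / 2 ^ k) * ff (BB n) (DD n) (t / 2) k 2 +
            (2 + t * (1 / 2 ^ k)) * ff (BB n) (DD n) (2 * t) (k + 1) 1 ≤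
            (2 * t + 2) * ff (BB n) (DD n) t (k + 1) 1 := by
          unfold ff
          rw [if_neg (show (2:ℕ) ≠ 1 by omega), if_pos rfl, if_pos rfl, Nat.add_sub_cancel]
          refine ineq_P hk ht1 ?_ hDt
          rw [BB_sq, hnk, DD]
          have g1 : (2:ℝ) ^ (k + 2) ≤ 2 ^ (2 * (k + 2) + 4) :=
            pow_le_pow_right₀ (by norm_num) (by omega)
          have g2 : (2:ℝ) ^ (2 * (k + 2) + 6) = 4 * 2 ^ (2 * (k + 2) + 4) := by
            rw [show 2 * (k + 2) + 6 = (2 * (k + 2) + 4) + 2 by ring, pow_add]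
            norm_num
            ring
          rw [g2]
          linarith
        have e3 : 2 * Y - Y / 2 ^ k = X * (t * (2 - 1 / 2 ^ k)) := by rw [hYt]; ring
        have e4 : Y / 2 ^ k - -(2 * X) = X * (2 + t * (1 / 2 ^ k)) := by rw [hYt]; ring
        have e5 : 2 * Y - -(2 * X) = X * (2 * t + 2) := by rw [hYt]; ring
        rw [e3, e4, e5]
        have := mul_le_mul_of_nonneg_left key (mul_nonneg hX.le hκ0)
        nlinarith
      · push Not at ht
        have hDX : 0 < DD n * X := mul_pos (by linarith) hX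
        have hDY : Y ≤ DD n * Y := le_mul_of_one_le_left hY.le hD1
        refine inner_ineq hb hc hε0 hε1 hL0 ?_ ?_ ?_
        · exact hbound _ _ _ _ hX hY (by linarith) (by linarith) (by omega) (by omega)
        · exact hbound _ _ _ _ (by linarith) hY (by linarith) (by linarith) (by omega) (by omega)
        · exact hbound _ _ _ _ hX (by linarith) (by linarith) (by linarith) (by omega) (by omega)

end Pool.Agent.W5h42.Hess
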