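import Pool.Agent.W5h42.Hess.Chain2

/-!
# Lower bound for the reachable weight
-/

set_option autoImplicit false

namespace Pool.Agent.W5h42.Hess

lemma Lf_swap {κ B D X Y : ℝ} {p q : ℕ} (h : Y < X) :
    Lf κ B D Y X q p = Lf κ B D X Y p q := by
  unfold Lf
  rw [if_pos h.le, if_neg (not_le.2 h)]

lemma Good.mono {R T : ℝ} {s : Multiset ℝ} {v v' : ℝ} (h : Good R T s v) (hv' : v' ≤ v) :
    Good R T s v' := by
  cases h with
  | leaf s v x hx hT hv => exact Good.leaf _ _ x hx hT (hv'.trans hv)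
  | zero s v hv => exact Good.zero _ _ (hv'.trans hv)
  | split r x b c v₁ v₂ v hb hc hK h₁ h₂ hv =>
    refine Good.split r x b c v₁ v₂ v' hb hc hK h₁ h₂ (le_trans ?_ hv)
    exact mul_le_mul_of_nonneg_right hv' (by linarith)

/-- The survival probability of the chain. -/
theorem chain {n : ℕ} {R T κ ε : ℝ} (hn : 3 ≤ n) (hR : 2 ^ (n + 4) ≤ R)
    (hκ : κ = (4 / R) ^ (n - 1)) (hε : ε = 2 * (κ * C1 n)) (hε1 : ε ≤ 1) (hT : 0 < T) :
    ∀ (m : ℕ) (X Y : ℝ) (p q : ℕ), 0 < X → 0 < Y → 1 ≤ p → 1 ≤ q → p + q = n →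
      Alive R X Y p q → T ^ 2 ≤ X * Y * 2 ^ m →
      Good R T (st X Y p q) ((1 - ε) ^ m * (1 - Lf κ (BB n) (DD n) X Y p q)) := by
  have hR0 : 0 < R := lt_of_lt_of_le (by positivity) hR
  have hκ0 : 0 ≤ κ := by rw [hκ]; positivity
  have hB1 := one_le_BB n
  have hD1 := one_le_DD n
  intro m
  induction m with
  | zero =>
    intro X Y p q hX hY hp hq hpq hA hXY
    have hL0 : 0 ≤ Lf κ (BB n) (DD n) X Y p q :=
      Lf_nonneg hκ0 (by linarith) (by linarith) hX hY _ _
    rw [pow_zero, mul_one] at hXY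
    rw [pow_zero, one_mul]
    rcases le_or_gt T Y with h | h
    · obtain ⟨k, rfl⟩ : ∃ k, p = k + 1 := ⟨p - 1, by omega⟩
      refine Good.leaf _ _ Y ?_ (by rwa [abs_of_pos hY]) (by linarith)
      unfold st
      rw [Multiset.mem_add]
      left
      rw [Multiset.mem_map]
      exact ⟨0, Multiset.mem_range.2 (Nat.succ_pos k), by simp⟩
    · have h2 : T ≤ X := by
        by_contra hcon
        push Not at hcon
        nlinarith
      obtain ⟨k, rfl⟩ : ∃ k, q = k + 1 := ⟨q - 1, by omega⟩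
      refine Good.leaf _ _ (-X) ?_ (by rwa [abs_neg, abs_of_pos hX]) (by linarith)
      unfold st
      rw [Multiset.mem_add]
      right
      rw [Multiset.mem_map]
      exact ⟨0, Multiset.mem_range.2 (Nat.succ_pos k), by simp⟩
  | succ m ih =>
    intro X Y p q hX hY hp hq hpq hA hXY
    rw [pow_succ (1 - ε)]
    rcases le_or_gt X Y with h | h
    · refine step hn hR hκ hε hε1 (pow_nonneg (by linarith) m) hX hY hp hq hpq hA h ?_
      intro X' Y' p' q' h1 h2 h3 h4 h5 h6 h7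
      refine ih X' Y' p' q' h1 h2 h3 h4 h5 h6 ?_
      rw [h7]
      rw [pow_succ (2:ℝ)] at hXY
      linarith
    · have hg := step (T := T) (w := (1 - ε) ^ m) (X := Y) (Y := X) (p := q) (q := p)
        hn hR hκ hε hε1 (pow_nonneg (by linarith) m) hY hX hq hp (by omega) ⟨hA.2, hA.1⟩ h.le ?_
      · have := hg.neg
        rw [st_neg, Lf_swap h] at this
        exact this
      · intro X' Y' p' q' h1 h2 h3 h4 h5 h6 h7
        refine ih X' Y' p' q' h1 h2 h3 h4 h5 h6 ?_
        rw [h7]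
        rw [pow_succ (2:ℝ)] at hXY
        linarith

/-- The starting state. -/
noncomputable def st0 (n : ℕ) : Multiset ℝ := st 1 1 (n - 1) 1

lemma inK_st0 {n : ℕ} {R : ℝ} (hn : 3 ≤ n) (hR : 2 ^ (n + 4) ≤ R) : InK R (st0 n) := by
  have hR16 : (16 : ℝ) ≤ R := by
    refine le_trans ?_ hR
    rw [pow_add]
    have : (1:ℝ) ≤ 2 ^ n := one_le_pow₀ (by norm_num)
    linarith
  unfold st0
  obtain ⟨k, rfl⟩ : ∃ k, n = k + 2 := ⟨n - 2, by omega⟩
  rw [show k + 2 - 1 = k + 1 by omega, st_succ_left]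
  have h2k : (1:ℝ) ≤ 2 ^ k := one_le_pow₀ (by norm_num)
  have h3 : (1:ℝ) / 2 ^ k ≤ 1 := by rw [div_le_one (by positivity)]; exact h2k
  have h4 : (0:ℝ) < 1 / 2 ^ k := by positivity
  exact inK_move one_pos one_pos (by omega) le_rfl (by linarith) (by linarith) _ (by linarith)
    (by linarith)

/-- From the starting state one reaches entries of size `2^(m/2)` with weight `(1-ε)^m / 2`. -/
theorem good_st0 {n : ℕ} {R T κ ε : ℝ} (hn : 3 ≤ n) (hR : 2 ^ (n + 4) ≤ R)
    (hκ : κ = (4 / R) ^ (n - 1)) (hε : ε = 2 * (κ * C1 n)) (hε1 : ε ≤ 1) (hT : 0 < T) (m : ℕ)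
    (hm : T ^ 2 ≤ 2 ^ m) : Good R T (st0 n) ((1 - ε) ^ m / 2) := by
  have hR0 : 0 < R := lt_of_lt_of_le (by positivity) hR
  have hκ0 : 0 ≤ κ := by rw [hκ]; positivity
  have hB1 := one_le_BB n
  have hD1 := one_le_DD n
  have hA : Alive R 1 1 (n - 1) 1 := by
    constructor
    · intro _
      norm_num
      refine le_trans ?_ hR
      rw [pow_add]
      have : (1:ℝ) ≤ 2 ^ n := one_le_pow₀ (by norm_num)
      linarith
    · intro _
      rw [mul_one, mul_one, show (4:ℝ) = 2 ^ 2 by norm_num, ← pow_add]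
      exact (pow_le_pow_right₀ (by norm_num) (by omega)).trans hR
  have h := chain hn hR hκ hε hε1 hT m 1 1 (n - 1) 1 one_pos one_pos (by omega) le_rfl (by omega)
    hA (by simpa using hm)
  refine h.mono ?_
  have hL : Lf κ (BB n) (DD n) 1 1 (n - 1) 1 ≤ ε / 2 := by
    refine (Lf_le (M := 2 * DD n) (n := n) hκ0 hB1 (by linarith) one_pos one_pos (by linarith)
      (by linarith) (by linarith) (by omega) (by omega)).trans ?_
    rw [hε, C1]
    linarith
  have h1 : 0 ≤ (1 - ε) ^ m := pow_nonneg (by linarith) m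
  nlinarith

end Pool.Agent.W5h42.Hess
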