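import Mathlib

/-!
# Pure second derivatives of functions on `Fin n → ℝ`
-/

set_option autoImplicit false

namespace Pool.Agent.W5h42.Hess

open Set Filter Topology

variable {n : ℕ}

/-- the first derivative in direction `j` -/
noncomputable def d1 (j : Fin n) (φ : (Fin n → ℝ) → ℝ) (x : Fin n → ℝ) : ℝ :=
  fderiv ℝ φ x (Pi.single j 1)

/-- the second derivative in direction `j` -/
noncomputable def d2 (j : Fin n) (φ : (Fin n → ℝ) → ℝ) (x : Fin n → ℝ) : ℝ :=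
  fderiv ℝ (fderiv ℝ φ) x (Pi.single j 1) (Pi.single j 1)

lemma d2_congr {j : Fin n} {φ ψ : (Fin n → ℝ) → ℝ} {x : Fin n → ℝ} (h : φ =ᶠ[𝓝 x] ψ) :
    d2 j φ x = d2 j ψ x := by
  unfold d2
  rw [h.fderiv.fderiv_eq]

@[simp] lemma d2_zero (j : Fin n) (x : Fin n → ℝ) : d2 j (fun _ => 0) x = 0 := by
  unfold d2
  have : fderiv ℝ (fun _ : Fin n → ℝ => (0:ℝ)) = fun _ => 0 := by
    funext y; simp
  rw [this]; simp

lemma diff_fderiv {φ : (Fin n → ℝ) → ℝ} (h : ContDiff ℝ 2 φ) : Differentiable ℝ (fderiv ℝ φ) :=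
  (h.fderiv_right (m := 1) (by norm_num)).differentiable (by norm_num)

lemma d2_add {j : Fin n} {φ ψ : (Fin n → ℝ) → ℝ} (hφ : ContDiff ℝ 2 φ) (hψ : ContDiff ℝ 2 ψ)
    (x : Fin n → ℝ) : d2 j (fun y => φ y + ψ y) x = d2 j φ x + d2 j ψ x := by
  unfold d2
  have h1 : fderiv ℝ (fun y => φ y + ψ y) = fun y => fderiv ℝ φ y + fderiv ℝ ψ y := by
    funext y
    exact fderiv_fun_add (hφ.differentiable (by norm_num) y) (hψ.differentiable (by norm_num) y)
  rw [h1, fderiv_fun_add (diff_fderiv hφ x) (diff_fderiv hψ x)]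
  rfl

lemma d1_continuous {j : Fin n} {φ : (Fin n → ℝ) → ℝ} (h : ContDiff ℝ 2 φ) :
    Continuous (d1 j φ) := by
  unfold d1
  have := h.continuous_fderiv (by norm_num)
  fun_prop

lemma d2_continuous {j : Fin n} {φ : (Fin n → ℝ) → ℝ} (h : ContDiff ℝ 2 φ) :
    Continuous (d2 j φ) := by
  unfold d2
  have := (h.fderiv_right (m := 1) (by norm_num)).continuous_fderiv (by norm_num)
  fun_prop

lemma line_hasDerivAt (x : Fin n → ℝ) (j : Fin n) (r : ℝ) :
    HasDerivAt (fun r : ℝ => x + r • (Pi.single j 1 : Fin n → ℝ)) (Pi.single j 1) r := by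
  simpa using ((hasDerivAt_id r).smul_const (Pi.single j 1 : Fin n → ℝ)).const_add x

lemma hasDerivAt_line {φ : (Fin n → ℝ) → ℝ} (h : ContDiff ℝ 2 φ) (x : Fin n → ℝ) (j : Fin n)
    (r : ℝ) : HasDerivAt (fun r : ℝ => φ (x + r • (Pi.single j 1 : Fin n → ℝ)))
      (d1 j φ (x + r • (Pi.single j 1 : Fin n → ℝ))) r :=
  ((h.differentiable (by norm_num) _).hasFDerivAt).comp_hasDerivAt r (line_hasDerivAt x j r)

lemma hasDerivAt_line2 {φ : (Fin n → ℝ) → ℝ} (h : ContDiff ℝ 2 φ) (x : Fin n → ℝ) (j : Fin n)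
    (r : ℝ) : HasDerivAt (fun r : ℝ => d1 j φ (x + r • (Pi.single j 1 : Fin n → ℝ)))
      (d2 j φ (x + r • (Pi.single j 1 : Fin n → ℝ))) r := by
  have h1 := ((diff_fderiv h _).hasFDerivAt).comp_hasDerivAt r (line_hasDerivAt x j r)
  have h2 := h1.clm_apply (hasDerivAt_const r (Pi.single j 1 : Fin n → ℝ))
  simpa [d1, d2] using h2

lemma d2_eq_of_line {φ : (Fin n → ℝ) → ℝ} (h : ContDiff ℝ 2 φ) (x : Fin n → ℝ) (j : Fin n)
    {G' : ℝ → ℝ} {c : ℝ}
    (h1 : ∀ r, HasDerivAt (fun r : ℝ => φ (x + r • (Pi.single j 1 : Fin n → ℝ))) (G' r) r)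
    (h2 : HasDerivAt G' c 0) : d2 j φ x = c := by
  have h3 : G' = fun r : ℝ => d1 j φ (x + r • (Pi.single j 1 : Fin n → ℝ)) := by
    funext r
    exact (h1 r).unique (hasDerivAt_line h x j r)
  rw [h3] at h2
  have h4 := hasDerivAt_line2 h x j 0
  have h5 := h2.unique h4
  rw [h5]
  simp

lemma contDiff_two_of {h h' h'' : ℝ → ℝ} (hh : ∀ x, HasDerivAt h (h' x) x)
    (hh' : ∀ x, HasDerivAt h' (h'' x) x) (hc : Continuous h'') : ContDiff ℝ 2 h := by
  have e1 : deriv h = h' := by funext x; exact (hh x).deriv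
  have e2 : deriv h' = h'' := by funext x; exact (hh' x).deriv
  rw [show (2 : WithTop ℕ∞) = 1 + 1 by norm_num, contDiff_succ_iff_deriv]
  refine ⟨fun x => (hh x).differentiableAt, by simp, ?_⟩
  rw [e1, show (1 : WithTop ℕ∞) = 0 + 1 by norm_num, contDiff_succ_iff_deriv]
  refine ⟨fun x => (hh' x).differentiableAt, by simp, ?_⟩
  rw [e2]
  exact contDiff_zero.2 hc

lemma contDiff_mul_coord {ψ : (Fin n → ℝ) → ℝ} (hψ : ContDiff ℝ 2 ψ) {h : ℝ → ℝ}
    (hh : ContDiff ℝ 2 h) (i : Fin n) : ContDiff ℝ 2 (fun x : Fin n → ℝ => ψ x * h (x i)) :=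
  hψ.mul (hh.comp (contDiff_apply ℝ ℝ i))

lemma d2_mul_coord_ne {ψ : (Fin n → ℝ) → ℝ} (hψ : ContDiff ℝ 2 ψ) {h : ℝ → ℝ}
    (hh : ContDiff ℝ 2 h) {i j : Fin n} (hij : j ≠ i) (x : Fin n → ℝ) :
    d2 j (fun x : Fin n → ℝ => ψ x * h (x i)) x = h (x i) * d2 j ψ x := by
  have hco : ∀ r : ℝ, (x + r • (Pi.single j 1 : Fin n → ℝ)) i = x i := by
    intro r
    simp [Pi.single_apply, hij.symm]
  refine d2_eq_of_line (contDiff_mul_coord hψ hh i) x j
    (G' := fun r => d1 j ψ (x + r • (Pi.single j 1 : Fin n → ℝ)) * h (x i)) ?_ ?_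
  · intro r
    simp only [hco]
    exact (hasDerivAt_line hψ x j r).mul_const _
  · have := (hasDerivAt_line2 hψ x j 0).mul_const (h (x i))
    simpa [mul_comm] using this

lemma d2_mul_coord_eq {ψ : (Fin n → ℝ) → ℝ} (hψ : ContDiff ℝ 2 ψ) {h h' h'' : ℝ → ℝ}
    (hh : ∀ x, HasDerivAt h (h' x) x) (hh' : ∀ x, HasDerivAt h' (h'' x) x) (hc : Continuous h'')
    (i : Fin n) (x : Fin n → ℝ) :
    d2 i (fun x : Fin n → ℝ => ψ x * h (x i)) x =
      h (x i) * d2 i ψ x + 2 * h' (x i) * d1 i ψ x + h'' (x i) * ψ x := by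
  have hco : ∀ r : ℝ, (x + r • (Pi.single i 1 : Fin n → ℝ)) i = x i + r := by
    intro r
    simp
  have k1 : ∀ r, HasDerivAt (fun r : ℝ => h (x i + r)) (h' (x i + r)) r := fun r =>
    (hh (x i + r)).comp_const_add (x i) r
  have k2 : ∀ r, HasDerivAt (fun r : ℝ => h' (x i + r)) (h'' (x i + r)) r := fun r =>
    (hh' (x i + r)).comp_const_add (x i) r
  refine d2_eq_of_line (contDiff_mul_coord hψ (contDiff_two_of hh hh' hc) i) x i
    (G' := fun r => d1 i ψ (x + r • (Pi.single i 1 : Fin n → ℝ)) * h (x i + r) +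
      ψ (x + r • (Pi.single i 1 : Fin n → ℝ)) * h' (x i + r)) ?_ ?_
  · intro r
    simp only [hco]
    exact (hasDerivAt_line hψ x i r).mul (k1 r)
  · have e1 := (hasDerivAt_line2 hψ x i 0).mul (k1 0)
    have e2 := (hasDerivAt_line hψ x i 0).mul (k2 0)
    have e3 := e1.add e2
    refine e3.congr_deriv ?_
    simp only [zero_smul, add_zero]
    ring

end Pool.Agent.W5h42.Hess
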