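import Mathlib

/-!
# A one-dimensional oscillating function with second derivative in `[-s, t]`
-/

set_option autoImplicit false

namespace Pool.Agent.W5h42.Hess

open Set Filter Topology MeasureTheory

/-- the ramp -/
noncomputable def ramp (z : ℝ) : ℝ := max 0 (min z 1)

lemma ramp_continuous : Continuous ramp := by unfold ramp; fun_prop

lemma ramp_nonneg (z : ℝ) : 0 ≤ ramp z := le_max_left _ _

lemma ramp_le_one (z : ℝ) : ramp z ≤ 1 := max_le (by norm_num) (min_le_right _ _)

lemma ramp_of_nonpos {z : ℝ} (h : z ≤ 0) : ramp z = 0 := by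
  unfold ramp
  rw [min_eq_left (by linarith), max_eq_left h]

lemma ramp_of_one_le {z : ℝ} (h : 1 ≤ z) : ramp z = 1 := by
  unfold ramp
  rw [min_eq_right h, max_eq_right (by norm_num)]

lemma ramp_of_mem {z : ℝ} (h0 : 0 ≤ z) (h1 : z ≤ 1) : ramp z = z := by
  unfold ramp
  rw [min_eq_left h1, max_eq_right h0]

lemma ramp_mono : Monotone ramp := by
  intro a b h
  unfold ramp
  gcongr

lemma integral_ramp {c ρ : ℝ} (hρ : 0 < ρ) (hc0 : 0 ≤ c) (hc1 : c + ρ ≤ 1) :
    ∫ y in (0:ℝ)..1, ramp ((y - c) / ρ) = 1 - c - ρ / 2 := by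
  have hcont : Continuous fun y : ℝ => ramp ((y - c) / ρ) :=
    ramp_continuous.comp (by fun_prop)
  have hint : ∀ a b : ℝ, IntervalIntegrable (fun y : ℝ => ramp ((y - c) / ρ)) volume a b :=
    fun a b => hcont.intervalIntegrable a b
  rw [← intervalIntegral.integral_add_adjacent_intervals (hint 0 c) (hint c 1),
    ← intervalIntegral.integral_add_adjacent_intervals (hint c (c + ρ)) (hint (c + ρ) 1)]
  have h1 : ∫ y in (0:ℝ)..c, ramp ((y - c) / ρ) = ∫ y in (0:ℝ)..c, (0:ℝ) := by
    apply intervalIntegral.integral_congr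
    intro y hy
    rw [uIcc_of_le hc0] at hy
    exact ramp_of_nonpos (div_nonpos_of_nonpos_of_nonneg (by linarith [hy.2]) hρ.le)
  have h3 : ∫ y in (c + ρ)..1, ramp ((y - c) / ρ) = ∫ y in (c + ρ)..1, (1:ℝ) := by
    apply intervalIntegral.integral_congr
    intro y hy
    rw [uIcc_of_le hc1] at hy
    refine ramp_of_one_le ?_
    rw [one_le_div hρ]
    linarith [hy.1]
  have h2 : ∫ y in c..(c + ρ), ramp ((y - c) / ρ) = ∫ y in c..(c + ρ), (y - c) / ρ := by
    apply intervalIntegral.integral_congr
    intro y hy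
    rw [uIcc_of_le (by linarith)] at hy
    refine ramp_of_mem (div_nonneg (by linarith [hy.1]) hρ.le) ?_
    rw [div_le_one hρ]
    linarith [hy.2]
  rw [h1, h2, h3, intervalIntegral.integral_div, intervalIntegral.integral_sub (Continuous.intervalIntegrable (by fun_prop) _ _)
      (Continuous.intervalIntegrable (by fun_prop) _ _)]
  simp only [integral_id, intervalIntegral.integral_const, smul_eq_mul]
  field_simp
  ring

/-- the profile on one period -/
noncomputable def prof (s t ρ y : ℝ) : ℝ :=
  -s + (s + t) * (ramp ((y - (t / (s + t) - ρ)) / ρ) - ramp ((y - (1 - ρ)) / ρ))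

/-- **Oscillation.** A function `H` with `H'' = g ∈ [-s, t]`, `H' = P` bounded, `g = -s` on the
fraction `t/(s+t) - ρ` and `g = t` on the fraction `s/(s+t) - ρ` of each period. -/
theorem exists_osc {s t ρ : ℝ} (hs : 0 < s) (ht : 0 < t) (hρ : 0 < ρ) (hρ1 : ρ ≤ t / (s + t))
    (hρ2 : ρ ≤ s / (s + t)) :
    ∃ H P g : ℝ → ℝ, (∀ x, HasDerivAt H (P x) x) ∧ (∀ x, HasDerivAt P (g x) x) ∧ Continuous g ∧
      (∀ x, -s ≤ g x ∧ g x ≤ t) ∧ (∀ x, |P x| ≤ s + t) ∧ (∀ x, |H x| ≤ (s + t) * |x|) ∧
      (∀ (k : ℤ) (x : ℝ), (k : ℝ) < x → x < k + (t / (s + t) - ρ) → g x = -s) ∧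
      (∀ (k : ℤ) (x : ℝ), (k : ℝ) + t / (s + t) < x → x < k + (1 - ρ) → g x = t) := by
  have hst : 0 < s + t := by linarith
  have hsum : t / (s + t) + s / (s + t) = 1 := by field_simp; ring
  set θ := t / (s + t) with hθ
  have hs1 : s / (s + t) = 1 - θ := by linarith
  rw [hs1] at hρ2
  have hprof_cont : Continuous (prof s t ρ) := by
    unfold prof
    have h1 : Continuous fun y : ℝ => ramp ((y - (t / (s + t) - ρ)) / ρ) :=
      ramp_continuous.comp (by fun_prop)
    have h2 : Continuous fun y : ℝ => ramp ((y - (1 - ρ)) / ρ) :=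
      ramp_continuous.comp (by fun_prop)
    fun_prop
  have hprof_bd : ∀ y, -s ≤ prof s t ρ y ∧ prof s t ρ y ≤ t := by
    intro y
    unfold prof
    rw [← hθ]
    have h1 : ramp ((y - (1 - ρ)) / ρ) ≤ ramp ((y - (θ - ρ)) / ρ) := by
      apply ramp_mono
      apply div_le_div_of_nonneg_right _ hρ.le
      linarith
    have h2 := ramp_nonneg ((y - (1 - ρ)) / ρ)
    have h3 := ramp_le_one ((y - (θ - ρ)) / ρ)
    constructor
    · nlinarith
    · nlinarith
  have hp0 : prof s t ρ 0 = -s := by
    unfold prof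
    rw [← hθ, ramp_of_nonpos, ramp_of_nonpos]
    · ring
    · exact div_nonpos_of_nonpos_of_nonneg (by linarith) hρ.le
    · exact div_nonpos_of_nonpos_of_nonneg (by linarith) hρ.le
  have hp1 : prof s t ρ 1 = -s := by
    unfold prof
    rw [← hθ, ramp_of_one_le, ramp_of_one_le]
    · ring
    · rw [one_le_div hρ]; linarith
    · rw [one_le_div hρ]; linarith
  set g : ℝ → ℝ := fun x => prof s t ρ (Int.fract x) with hg
  have hgc : Continuous g := by
    have := ContinuousOn.comp_fract (s := fun x : ℝ => x) (f := fun _ : ℝ => prof s t ρ)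
      ((hprof_cont.comp continuous_snd).continuousOn) continuous_id (fun _ => by rw [hp0, hp1])
    exact this
  have hgper : Function.Periodic g 1 := by
    intro x
    simp only [hg, Int.fract_add_one]
  have hgbd : ∀ x, -s ≤ g x ∧ g x ≤ t := fun x => hprof_bd _
  have hgabs : ∀ x, |g x| ≤ s + t := by
    intro x
    rw [abs_le]
    exact ⟨by linarith [(hgbd x).1], by linarith [(hgbd x).2]⟩
  have hg01 : ∫ x in (0:ℝ)..1, g x = 0 := by
    have h1 : ∫ x in (0:ℝ)..1, g x = ∫ x in (0:ℝ)..1, prof s t ρ x := by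
      apply intervalIntegral.integral_congr_ae
      have : ∀ᵐ x : ℝ ∂volume, x ≠ 1 := by
        simp [ae_iff, measure_singleton]
      filter_upwards [this] with x hx hx'
      rw [uIoc_of_le (by norm_num)] at hx'
      have : Int.fract x = x := Int.fract_eq_self.2 ⟨hx'.1.le, lt_of_le_of_ne hx'.2 hx⟩
      simp only [hg, this]
    rw [h1]
    unfold prof
    rw [← hθ]
    have hA : IntervalIntegrable (fun y : ℝ => ramp ((y - (θ - ρ)) / ρ)) volume 0 1 :=
      (ramp_continuous.comp (by fun_prop)).intervalIntegrable _ _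
    have hB : IntervalIntegrable (fun y : ℝ => ramp ((y - (1 - ρ)) / ρ)) volume 0 1 :=
      (ramp_continuous.comp (by fun_prop)).intervalIntegrable _ _
    rw [intervalIntegral.integral_add (Continuous.intervalIntegrable (by fun_prop) _ _) ((hA.sub hB).const_mul _), intervalIntegral.integral_const_mul,
      intervalIntegral.integral_sub hA hB, integral_ramp hρ (by linarith) (by linarith),
      integral_ramp hρ (by linarith) (by linarith)]
    simp only [intervalIntegral.integral_const, smul_eq_mul]
    have : (s + t) * θ = t := by rw [hθ]; field_simp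
    linear_combination (-1 : ℝ) * this
  set P : ℝ → ℝ := fun x => ∫ y in (0:ℝ)..x, g y with hP
  have hPd : ∀ x, HasDerivAt P (g x) x := fun x =>
    intervalIntegral.integral_hasDerivAt_right (hgc.intervalIntegrable _ _)
      hgc.stronglyMeasurable.stronglyMeasurableAtFilter hgc.continuousAt
  have hPc : Continuous P := continuous_iff_continuousAt.2 fun x => (hPd x).continuousAt
  have hPper : Function.Periodic P 1 := by
    intro x
    simp only [hP]
    rw [← intervalIntegral.integral_add_adjacent_intervals (hgc.intervalIntegrable 0 x)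
      (hgc.intervalIntegrable x (x + 1)), hgper.intervalIntegral_add_eq x 0, zero_add, hg01, add_zero]
  have hPbd : ∀ x, |P x| ≤ s + t := by
    intro x
    have h1 : P x = P (Int.fract x) := by
      have := hPper.sub_zsmul_eq (x := x) ⌊x⌋
      rw [zsmul_one] at this
      rw [← this]
      rfl
    rw [h1]
    have h2 : ‖∫ y in (0:ℝ)..(Int.fract x), g y‖ ≤ (s + t) * |Int.fract x - 0| :=
      intervalIntegral.norm_integral_le_of_norm_le_const (fun y _ => hgabs y)
    rw [Real.norm_eq_abs, sub_zero, abs_of_nonneg (Int.fract_nonneg x)] at h2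
    refine h2.trans ?_
    have := (Int.fract_lt_one x).le
    nlinarith
  set H : ℝ → ℝ := fun x => ∫ y in (0:ℝ)..x, P y with hH
  have hHd : ∀ x, HasDerivAt H (P x) x := fun x =>
    intervalIntegral.integral_hasDerivAt_right (hPc.intervalIntegrable _ _)
      hPc.stronglyMeasurable.stronglyMeasurableAtFilter hPc.continuousAt
  refine ⟨H, P, g, hHd, hPd, hgc, hgbd, hPbd, ?_, ?_, ?_⟩
  · intro x
    have h2 : ‖∫ y in (0:ℝ)..x, P y‖ ≤ (s + t) * |x - 0| :=
      intervalIntegral.norm_integral_le_of_norm_le_const (fun y _ => hPbd y)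
    simpa using h2
  · intro k x h1 h2
    have hfl : Int.fract x = x - k := by
      rw [Int.fract_eq_iff]
      refine ⟨by linarith, by linarith, k, by ring⟩
    simp only [hg, hfl]
    unfold prof
    rw [← hθ, ramp_of_nonpos, ramp_of_nonpos]
    · ring
    · exact div_nonpos_of_nonpos_of_nonneg (by linarith) hρ.le
    · exact div_nonpos_of_nonpos_of_nonneg (by linarith) hρ.le
  · intro k x h1 h2
    have hθ0 : 0 < θ := by positivity
    have hfl : Int.fract x = x - k := by
      rw [Int.fract_eq_iff]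
      refine ⟨by linarith, by linarith, k, by ring⟩
    simp only [hg, hfl]
    unfold prof
    rw [← hθ, ramp_of_one_le, ramp_of_nonpos]
    · ring
    · exact div_nonpos_of_nonpos_of_nonneg (by linarith) hρ.le
    · rw [one_le_div hρ]; linarith

end Pool.Agent.W5h42.Hess
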