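import Pool.Agent.W5h42.Hess.Step

/-!
# Realising a splitting scheme by a function of class `C²`
-/

set_option autoImplicit false

namespace Pool.Agent.W5h42.Hess

open Set Filter Topology MeasureTheory

/-- the set of points of a box where the perturbed diagonal has a large entry -/
def bigSet {n : ℕ} (T : ℝ) (a : Fin n → ℝ) (φ : (Fin n → ℝ) → ℝ) (α β : Fin n → ℝ) :
    Set (Fin n → ℝ) := {x | x ∈ box α β ∧ ∃ j, T ≤ |a j + d2 j φ x|}

lemma measurableSet_bigSet {n : ℕ} (T : ℝ) (a : Fin n → ℝ) {φ : (Fin n → ℝ) → ℝ}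
    (hφ : ContDiff ℝ 2 φ) (α β : Fin n → ℝ) : MeasurableSet (bigSet T a φ α β) := by
  have h1 : IsClosed {x : Fin n → ℝ | ∃ j, T ≤ |a j + d2 j φ x|} := by
    have : {x : Fin n → ℝ | ∃ j, T ≤ |a j + d2 j φ x|} = ⋃ j, {x | T ≤ |a j + d2 j φ x|} := by
      ext x; simp
    rw [this]
    refine isClosed_iUnion_of_finite fun j => isClosed_le continuous_const ?_
    have := d2_continuous (j := j) hφ
    fun_prop
  exact (isOpen_box α β).measurableSet.inter h1.measurableSet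

lemma volume_bigSet_lt_top {n : ℕ} (T : ℝ) (a : Fin n → ℝ) (φ : (Fin n → ℝ) → ℝ)
    (α β : Fin n → ℝ) : volume (bigSet T a φ α β) < ⊤ :=
  lt_of_le_of_lt (measure_mono fun _ hx => hx.1) (volume_box_lt_top α β)

lemma sum_eventuallyEq {n : ℕ} {ι : Type*} [Fintype ι] [DecidableEq ι]
    {φ : ι → (Fin n → ℝ) → ℝ} {x : Fin n → ℝ} {k₀ : ι}
    (h : ∀ k, k ≠ k₀ → φ k =ᶠ[𝓝 x] fun _ => 0) :
    (fun y => ∑ k, φ k y) =ᶠ[𝓝 x] φ k₀ := by
  have h1 : ∀ᶠ y in 𝓝 x, ∀ k, k ≠ k₀ → φ k y = 0 := by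
    rw [Filter.eventually_all]
    intro k
    by_cases hk : k = k₀
    · exact Filter.Eventually.of_forall fun y hy => absurd hk hy
    · filter_upwards [h k hk] with y hy _
      exact hy
  filter_upwards [h1] with y hy
  rw [Finset.sum_eq_single k₀ (fun k _ hk => hy k hk) (by simp)]

lemma sum_eventuallyEq_zero {n : ℕ} {ι : Type*} [Fintype ι]
    {φ : ι → (Fin n → ℝ) → ℝ} {x : Fin n → ℝ} (h : ∀ k, φ k =ᶠ[𝓝 x] fun _ => 0) :
    (fun y => ∑ k, φ k y) =ᶠ[𝓝 x] fun _ => 0 := by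
  have h1 : ∀ᶠ y in 𝓝 x, ∀ k, φ k y = 0 := by
    rw [Filter.eventually_all]
    exact fun k => h k
  filter_upwards [h1] with y hy
  simp [hy]

/-- the statement to be proved by induction -/
def Real' (R T : ℝ) (s : Multiset ℝ) (v : ℝ) : Prop :=
  ∀ (n : ℕ) (a : Fin n → ℝ), Finset.univ.val.map a = s → Kv R a →
    ∀ α β : Fin n → ℝ, (∀ j, α j < β j) → ∀ δ : ℝ, 0 < δ →
      ∃ φ : (Fin n → ℝ) → ℝ, ContDiff ℝ 2 φ ∧ (∀ x, x ∉ box α β → φ =ᶠ[𝓝 x] fun _ => 0) ∧
        (∀ x, |φ x| ≤ δ) ∧ (∀ x, Kv R (fun j => a j + d2 j φ x)) ∧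
        (v - δ) * ∏ j, (β j - α j) ≤ (volume (bigSet T a φ α β)).toReal

lemma real'_split {R T : ℝ} (r : Multiset ℝ) (x b c v₁ v₂ v : ℝ) (hb : b < x) (hc : x < c)
    (hK : ∀ y, b ≤ y → y ≤ c → InK R (y ::ₘ r)) (hv : v * (c - b) ≤ (c - x) * v₁ + (x - b) * v₂)
    (ih₁ : Real' R T (b ::ₘ r) v₁) (ih₂ : Real' R T (c ::ₘ r) v₂) : Real' R T (x ::ₘ r) v := by
  intro n a ha _ α β hαβ δ hδ
  obtain ⟨i, hi, hup⟩ := exists_update ha
  subst hi
  have hcb : 0 < c - b := by linarith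
  obtain ⟨θ₁, hθ₁⟩ : ∃ θ₁, θ₁ = (c - a i) / (c - b) := ⟨_, rfl⟩
  obtain ⟨θ₂, hθ₂⟩ : ∃ θ₂, θ₂ = (a i - b) / (c - b) := ⟨_, rfl⟩
  have hθ₁0 : 0 < θ₁ := by rw [hθ₁]; exact div_pos (by linarith) hcb
  have hθ₂0 : 0 < θ₂ := by rw [hθ₂]; exact div_pos (by linarith) hcb
  have hv' : v ≤ θ₁ * v₁ + θ₂ * v₂ := by
    rw [hθ₁, hθ₂, div_mul_eq_mul_div, div_mul_eq_mul_div, ← add_div, le_div_iff₀ hcb]
    exact hv
  have hK' : ∀ y, b ≤ y → y ≤ c → Kv R (Function.update a i y) := by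
    intro y h1 h2
    unfold Kv
    rw [hup]
    exact hK y h1 h2
  have hprod : 0 < ∏ j, (β j - α j) := Finset.prod_pos fun j _ => by linarith [hαβ j]
  -- choice of `ε`
  have hF : Tendsto (fun ε : ℝ => (∏ j, (β j - α j - 2 * ε)) *
      ((θ₁ - ε) * (v₁ - ε) + (θ₂ - ε) * (v₂ - ε))) (𝓝 0)
      (𝓝 ((∏ j, (β j - α j - 2 * 0)) * ((θ₁ - 0) * (v₁ - 0) + (θ₂ - 0) * (v₂ - 0)))) := by
    have : Continuous (fun ε : ℝ => (∏ j, (β j - α j - 2 * ε)) *
      ((θ₁ - ε) * (v₁ - ε) + (θ₂ - ε) * (v₂ - ε))) := by fun_prop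
    exact this.tendsto 0
  have hF0 : (v - δ) * ∏ j, (β j - α j) <
      (∏ j, (β j - α j - 2 * 0)) * ((θ₁ - 0) * (v₁ - 0) + (θ₂ - 0) * (v₂ - 0)) := by
    simp only [mul_zero, sub_zero]
    rw [mul_comm (∏ j, (β j - α j))]
    exact mul_lt_mul_of_pos_right (by linarith) hprod
  have h1 := hF.eventually (lt_mem_nhds hF0)
  have h2 : ∀ᶠ ε : ℝ in 𝓝 0, ∀ j, 2 * ε < β j - α j := by
    rw [Filter.eventually_all]
    intro j
    have : Tendsto (fun ε : ℝ => 2 * ε) (𝓝 0) (𝓝 (2 * 0)) :=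
      (continuous_const.mul continuous_id).tendsto 0
    rw [mul_zero] at this
    exact this.eventually (gt_mem_nhds (by linarith [hαβ j]))
  have h3 : ∀ᶠ ε : ℝ in 𝓝 0, ε < θ₁ := gt_mem_nhds hθ₁0
  have h4 : ∀ᶠ ε : ℝ in 𝓝 0, ε < θ₂ := gt_mem_nhds hθ₂0
  have h5 : ∀ᶠ ε : ℝ in 𝓝[>] 0, 0 < ε := eventually_mem_nhdsWithin
  obtain ⟨ε, hε0, hε1, hε2, hε3, hε4⟩ := (h5.and (((h1.and (h2.and (h3.and h4)))).filter_mono
    nhdsWithin_le_nhds)).exists
  rw [hθ₁] at hε3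
  rw [hθ₂] at hε4
  obtain ⟨m, φ₀, lo, hi', hφC, hφ0, hφδ, hφK, hlh, hsub, hdis, hup', hs1, hs2⟩ :=
    split_step hb hc hK' hε0 hε2 hε3 hε4 (half_pos hδ)
  rw [← hθ₁] at hs1
  rw [← hθ₂] at hs2
  obtain ⟨δ', hδ'⟩ : ∃ δ', δ' = min ε (δ / 2) := ⟨_, rfl⟩
  have hδ'0 : 0 < δ' := by rw [hδ']; positivity
  have hδ'1 : δ' ≤ ε := by rw [hδ']; exact min_le_left _ _
  have hδ'2 : δ' ≤ δ / 2 := by rw [hδ']; exact min_le_right _ _
  have hex : ∀ k : Fin m × Bool, ∃ φ : (Fin n → ℝ) → ℝ, ContDiff ℝ 2 φ ∧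
      (∀ x, x ∉ box (lo k) (hi' k) → φ =ᶠ[𝓝 x] fun _ => 0) ∧ (∀ x, |φ x| ≤ δ') ∧
      (∀ x, Kv R (fun j => Function.update a i (if k.2 then c else b) j + d2 j φ x)) ∧
      ((if k.2 then v₂ else v₁) - δ') * ∏ j, (hi' k j - lo k j) ≤
        (volume (bigSet T (Function.update a i (if k.2 then c else b)) φ (lo k) (hi' k))).toReal := by
    rintro ⟨k, bb⟩
    cases bb
    · exact ih₁ n _ (hup b) (hK' b le_rfl (hb.le.trans hc.le)) _ _ (hlh (k, false)) δ' hδ'0
    · exact ih₂ n _ (hup c) (hK' c (hb.le.trans hc.le) le_rfl) _ _ (hlh (k, true)) δ' hδ'0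
  choose φ hφ1 hφ2 hφ3 hφ4 hφ5 using hex
  have hSC : ContDiff ℝ 2 (fun y => ∑ k, φ k y) := ContDiff.sum fun k _ => hφ1 k
  -- local structure
  have hloc1 : ∀ k₀, ∀ x ∈ box (lo k₀) (hi' k₀), (fun y => ∑ k, φ k y) =ᶠ[𝓝 x] φ k₀ := by
    intro k₀ x hx
    refine sum_eventuallyEq fun k hk => hφ2 k x fun hxk => ?_
    exact Set.disjoint_left.1 (hdis k k₀ hk) hxk hx
  have hloc2 : ∀ x, (∀ k, x ∉ box (lo k) (hi' k)) → (fun y => ∑ k, φ k y) =ᶠ[𝓝 x] fun _ => 0 :=
    fun x hx => sum_eventuallyEq_zero fun k => hφ2 k x (hx k)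
  have hd : ∀ k₀, ∀ x ∈ box (lo k₀) (hi' k₀), ∀ j, a j + d2 j (fun y => φ₀ y + ∑ k, φ k y) x =
      Function.update a i (if k₀.2 then c else b) j + d2 j (φ k₀) x := by
    intro k₀ x hx j
    rw [d2_add hφC hSC, d2_congr (hloc1 k₀ x hx), ← add_assoc]
    congr 1
    exact congrFun (hup' k₀ x hx) j
  refine ⟨fun y => φ₀ y + ∑ k, φ k y, hφC.add hSC, ?_, ?_, ?_, ?_⟩
  · intro x hx
    have e1 := hφ0 x hx
    have e2 := hloc2 x fun k hk => hx (hsub k hk)
    filter_upwards [e1, e2] with y hy1 hy2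
    rw [hy1, hy2, add_zero]
  · intro x
    have e1 : |∑ k, φ k x| ≤ δ / 2 := by
      by_cases hx : ∃ k, x ∈ box (lo k) (hi' k)
      · obtain ⟨k, hk⟩ := hx
        have : ∑ k, φ k x = φ k x := (hloc1 k x hk).eq_of_nhds
        rw [this]
        exact (hφ3 k x).trans hδ'2
      · push Not at hx
        have : ∑ k, φ k x = 0 := (hloc2 x hx).eq_of_nhds
        rw [this, abs_zero]
        linarith
    have e2 := abs_add_le (φ₀ x) (∑ k, φ k x)
    have e3 := hφδ x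
    linarith
  · intro x
    by_cases hx : ∃ k, x ∈ box (lo k) (hi' k)
    · obtain ⟨k, hk⟩ := hx
      have : (fun j => a j + d2 j (fun y => φ₀ y + ∑ k, φ k y) x) =
          fun j => Function.update a i (if k.2 then c else b) j + d2 j (φ k) x := by
        funext j
        exact hd k x hk j
      rw [this]
      exact hφ4 k x
    · push Not at hx
      have : (fun j => a j + d2 j (fun y => φ₀ y + ∑ k, φ k y) x) =
          fun j => a j + d2 j φ₀ x := by
        funext j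
        rw [d2_add hφC hSC, d2_congr (hloc2 x hx), d2_zero, add_zero]
      rw [this]
      exact hφK x
  · have hsubset : (⋃ k, bigSet T (Function.update a i (if k.2 then c else b)) (φ k) (lo k) (hi' k))
        ⊆ bigSet T a (fun y => φ₀ y + ∑ k, φ k y) α β := by
      intro x hx
      rw [mem_iUnion] at hx
      obtain ⟨k, hk, j, hj⟩ := hx
      refine ⟨hsub k hk, j, ?_⟩
      rw [hd k x hk j]
      exact hj
    have hmeas : volume (⋃ k, bigSet T (Function.update a i (if k.2 then c else b)) (φ k) (lo k)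
        (hi' k)) = ∑ k, volume (bigSet T (Function.update a i (if k.2 then c else b)) (φ k) (lo k)
        (hi' k)) := by
      rw [measure_iUnion, tsum_fintype]
      · intro k l hkl
        exact (hdis k l hkl).mono (fun _ h => h.1) (fun _ h => h.1)
      · intro k
        exact measurableSet_bigSet T _ (hφ1 k) _ _
    have h6 : (∑ k, volume (bigSet T (Function.update a i (if k.2 then c else b)) (φ k) (lo k)
        (hi' k))).toReal ≤ (volume (bigSet T a (fun y => φ₀ y + ∑ k, φ k y) α β)).toReal := by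
      rw [← hmeas]
      exact ENNReal.toReal_mono (volume_bigSet_lt_top T a _ α β).ne (measure_mono hsubset)
    rw [ENNReal.toReal_sum (fun k _ => (volume_bigSet_lt_top T _ _ _ _).ne)] at h6
    refine le_trans ?_ h6
    have h7 : ∑ k : Fin m × Bool, ((if k.2 then v₂ else v₁) - ε) * ∏ j, (hi' k j - lo k j) ≤
        ∑ k, (volume (bigSet T (Function.update a i (if k.2 then c else b)) (φ k) (lo k)
        (hi' k))).toReal := by
      refine Finset.sum_le_sum fun k _ => le_trans ?_ (hφ5 k)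
      refine mul_le_mul_of_nonneg_right (by linarith) ?_
      exact Finset.prod_nonneg fun j _ => by linarith [hlh k j]
    refine le_trans ?_ h7
    rw [Fintype.sum_prod_type]
    simp only [Fintype.sum_bool, if_true, Bool.false_eq_true, if_false]
    rw [Finset.sum_add_distrib, ← Finset.mul_sum, ← Finset.mul_sum, hs1, hs2]
    calc (v - δ) * ∏ j, (β j - α j) ≤ (∏ j, (β j - α j - 2 * ε)) *
          ((θ₁ - ε) * (v₁ - ε) + (θ₂ - ε) * (v₂ - ε)) := hε1.le
      _ = _ := by ring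

/-- Every splitting scheme is realised by a function of class `C²`. -/
theorem realize {R T : ℝ} {s : Multiset ℝ} {v : ℝ} (h : Good R T s v) : Real' R T s v := by
  induction h with
  | leaf s v x hx hT hv =>
    intro n a ha hKa α β hαβ δ hδ
    refine ⟨fun _ => 0, contDiff_const, fun _ _ => Filter.EventuallyEq.rfl, fun _ => ?_, fun x => ?_,
      ?_⟩
    · rw [abs_zero]; exact hδ.le
    · simp only [d2_zero, add_zero]
      exact hKa
    · have hs : bigSet T a (fun _ => 0) α β = box α β := by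
        ext y
        constructor
        · exact fun h => h.1
        · intro hy
          rw [← ha] at hx
          obtain ⟨i, _, hi⟩ := Multiset.mem_map.1 hx
          refine ⟨hy, i, ?_⟩
          rw [d2_zero, add_zero, hi]
          exact hT
      rw [hs, volume_box hαβ]
      have hprod : 0 < ∏ j, (β j - α j) := Finset.prod_pos fun j _ => by linarith [hαβ j]
      nlinarith
  | zero s v hv =>
    intro n a ha hKa α β hαβ δ hδ
    refine ⟨fun _ => 0, contDiff_const, fun _ _ => Filter.EventuallyEq.rfl, fun _ => ?_, fun x => ?_,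
      ?_⟩
    · rw [abs_zero]; exact hδ.le
    · simp only [d2_zero, add_zero]
      exact hKa
    · have hprod : 0 < ∏ j, (β j - α j) := Finset.prod_pos fun j _ => by linarith [hαβ j]
      have : (v - δ) * ∏ j, (β j - α j) ≤ 0 :=
        mul_nonpos_of_nonpos_of_nonneg (by linarith) hprod.le
      exact this.trans ENNReal.toReal_nonneg
  | split r x b c v₁ v₂ v hb hc hK h₁ h₂ hv ih₁ ih₂ =>
    exact real'_split r x b c v₁ v₂ v hb hc hK hv ih₁ ih₂

end Pool.Agent.W5h42.Hess
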