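import Pool.Agent.W5h42.Hess.Chain
import Pool.Agent.W5h42.Hess.Osc
import Pool.Agent.W5h42.Hess.D2

/-!
# One splitting step realised by an oscillating function
-/

set_option autoImplicit false

namespace Pool.Agent.W5h42.Hess

open Set Filter Topology MeasureTheory

variable {n : ℕ}

/-- the cone condition for a vector of diagonal entries -/
def Kv (R : ℝ) (a : Fin n → ℝ) : Prop := InK R (Finset.univ.val.map a)

lemma posSum_map (a : Fin n → ℝ) : posSum (Finset.univ.val.map a) = ∑ j, max (a j) 0 := by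
  unfold posSum
  rw [Multiset.map_map]
  rfl

lemma negSum_map (a : Fin n → ℝ) : negSum (Finset.univ.val.map a) = ∑ j, max (-a j) 0 := by
  unfold negSum
  rw [Multiset.map_map]
  rfl

lemma Kv_iff {R : ℝ} {a : Fin n → ℝ} : Kv R a ↔
    ∑ j, max (a j) 0 < R * ∑ j, max (-a j) 0 ∧ ∑ j, max (-a j) 0 < R * ∑ j, max (a j) 0 := by
  unfold Kv InK
  rw [posSum_map, negSum_map]

lemma isOpen_Kv (R : ℝ) : IsOpen {a : Fin n → ℝ | Kv R a} := by
  simp only [Kv_iff]
  have h1 : Continuous fun a : Fin n → ℝ => ∑ j, max (a j) 0 := by fun_prop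
  have h2 : Continuous fun a : Fin n → ℝ => ∑ j, max (-a j) 0 := by fun_prop
  exact (isOpen_lt h1 (h2.const_mul R)).inter (isOpen_lt h2 (h1.const_mul R))

lemma exists_update {a : Fin n → ℝ} {x : ℝ} {r : Multiset ℝ}
    (h : Finset.univ.val.map a = x ::ₘ r) :
    ∃ i, a i = x ∧ ∀ y, Finset.univ.val.map (Function.update a i y) = y ::ₘ r := by
  have hx : x ∈ Finset.univ.val.map a := by rw [h]; exact Multiset.mem_cons_self _ _
  obtain ⟨i, _, hi⟩ := Multiset.mem_map.1 hx
  refine ⟨i, hi, fun y => ?_⟩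
  have e : (Finset.univ : Finset (Fin n)).val = i ::ₘ (Finset.univ.erase i).val := by
    rw [Finset.erase_val, Multiset.cons_erase (by simp)]
  rw [e, Multiset.map_cons, hi, Multiset.cons_inj_right] at h
  rw [e, Multiset.map_cons, Function.update_self, ← h]
  congr 1
  apply Multiset.map_congr rfl
  intro k hk
  have : k ≠ i := by
    exact (Finset.mem_erase.1 (show k ∈ Finset.univ.erase i from hk)).1
  rw [Function.update_of_ne this]

/-- open box -/
def box (α β : Fin n → ℝ) : Set (Fin n → ℝ) := Set.univ.pi fun j => Ioo (α j) (β j)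

lemma mem_box {α β x : Fin n → ℝ} : x ∈ box α β ↔ ∀ j, α j < x j ∧ x j < β j := by
  simp [box]

lemma isOpen_box (α β : Fin n → ℝ) : IsOpen (box α β) :=
  isOpen_set_pi finite_univ fun _ _ => isOpen_Ioo

lemma volume_box {α β : Fin n → ℝ} (h : ∀ j, α j < β j) :
    (volume (box α β)).toReal = ∏ j, (β j - α j) := by
  unfold box
  rw [Real.volume_pi_Ioo, ENNReal.toReal_prod]
  apply Finset.prod_congr rfl
  intro j _
  rw [ENNReal.toReal_ofReal]
  linarith [h j]

lemma volume_box_lt_top (α β : Fin n → ℝ) : volume (box α β) < ⊤ := by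
  unfold box
  rw [Real.volume_pi_Ioo]
  exact ENNReal.prod_lt_top fun _ _ => ENNReal.ofReal_lt_top

/-- cutoff function of a box -/
theorem exists_cutoff (α β : Fin n → ℝ) {r : ℝ} (hr : 0 < r) :
    ∃ (ψ : (Fin n → ℝ) → ℝ) (M : ℝ), ContDiff ℝ 2 ψ ∧ (∀ x, 0 ≤ ψ x ∧ ψ x ≤ 1) ∧
      (∀ x, x ∉ box α β → ψ =ᶠ[𝓝 x] fun _ => 0) ∧
      (∀ x, (∀ j, α j + r ≤ x j ∧ x j ≤ β j - r) → ψ =ᶠ[𝓝 x] fun _ => 1) ∧
      (∀ x j, |d1 j ψ x| ≤ M ∧ |d2 j ψ x| ≤ M) := by
  set s : Set (Fin n → ℝ) := Set.univ.pi fun j => Icc (α j + r) (β j - r) with hs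
  set t : Set (Fin n → ℝ) := Set.univ.pi fun j => Icc (α j + r / 2) (β j - r / 2) with ht
  have hsc : IsClosed s := isClosed_set_pi fun _ _ => isClosed_Icc
  have htc : IsCompact t := isCompact_univ_pi fun _ => isCompact_Icc
  have hst : s ⊆ interior t := by
    have h1 : s ⊆ Set.univ.pi fun j => Ioo (α j + r / 2) (β j - r / 2) := by
      intro x hx j hj
      have := hx j hj
      exact ⟨by linarith [this.1], by linarith [this.2]⟩
    refine h1.trans (interior_maximal ?_ (isOpen_set_pi finite_univ fun _ _ => isOpen_Ioo))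
    exact Set.pi_mono fun j _ => Ioo_subset_Icc_self
  obtain ⟨f, hf1, hf0, hf⟩ := exists_contMDiffMap_one_nhds_of_subset_interior
    (n := (2 : ℕ∞)) (modelWithCornersSelf ℝ (Fin n → ℝ)) hsc hst
  have hfC : ContDiff ℝ 2 f := f.contMDiff.contDiff
  have hzero : ∀ x, x ∉ t → f =ᶠ[𝓝 x] fun _ => 0 := by
    intro x hx
    filter_upwards [htc.isClosed.isOpen_compl.mem_nhds hx] with y hy
    exact hf0 y hy
  obtain ⟨M1, hM1⟩ : ∃ M1 : Fin n → ℝ, ∀ j, ∀ x ∈ t, ‖d1 j f x‖ ≤ M1 j := by
    choose M hM using fun j => htc.exists_bound_of_continuousOn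
      (d1_continuous (j := j) hfC).continuousOn
    exact ⟨M, hM⟩
  obtain ⟨M2, hM2⟩ : ∃ M2 : Fin n → ℝ, ∀ j, ∀ x ∈ t, ‖d2 j f x‖ ≤ M2 j := by
    choose M hM using fun j => htc.exists_bound_of_continuousOn
      (d2_continuous (j := j) hfC).continuousOn
    exact ⟨M, hM⟩
  refine ⟨f, ∑ j, (|M1 j| + |M2 j|), hfC, hf, ?_, ?_, ?_⟩
  · intro x hx
    apply hzero
    intro hxt
    apply hx
    rw [mem_box]
    intro j
    have := hxt j (mem_univ j)
    exact ⟨by linarith [this.1], by linarith [this.2]⟩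
  · intro x hx
    have hxs : x ∈ s := fun j _ => ⟨(hx j).1, (hx j).2⟩
    exact Filter.eventually_of_mem (mem_nhdsSet_iff_forall.1 hf1 x hxs) fun y hy => hy
  · intro x j
    have hj : |M1 j| + |M2 j| ≤ ∑ j, (|M1 j| + |M2 j|) :=
      Finset.single_le_sum (f := fun j => |M1 j| + |M2 j|) (fun _ _ => by positivity)
        (Finset.mem_univ j)
    by_cases hx : x ∈ t
    · have h1 := hM1 j x hx
      have h2 := hM2 j x hx
      rw [Real.norm_eq_abs] at h1 h2
      have := le_abs_self (M1 j)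
      have := le_abs_self (M2 j)
      have := abs_nonneg (M1 j)
      have := abs_nonneg (M2 j)
      exact ⟨by linarith, by linarith⟩
    · have h0 := hzero x hx
      have e1 : d1 j f x = 0 := by
        unfold d1
        rw [h0.fderiv_eq]
        simp
      have e2 : d2 j f x = 0 := by rw [d2_congr h0, d2_zero]
      rw [e1, e2, abs_zero]
      have : 0 ≤ ∑ j, (|M1 j| + |M2 j|) := Finset.sum_nonneg fun _ _ => by positivity
      exact ⟨this, this⟩

end Pool.Agent.W5h42.Hess
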