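import Pool.Agent.W5h42.Hess.Split

/-!
# One splitting step: the family of sub-boxes
-/

set_option autoImplicit false

namespace Pool.Agent.W5h42.Hess

open Set Filter Topology MeasureTheory

variable {n : ℕ}

/-- lower corner of a sub-box -/
noncomputable def loC (α : Fin n → ℝ) (i : Fin n) (ε c₀ ℓ θ : ℝ) (k : ℕ) (bb : Bool) :
    Fin n → ℝ :=
  Function.update (fun j => α j + ε) i (c₀ + ℓ * (k + if bb then θ else 0))

/-- upper corner of a sub-box -/
noncomputable def hiC (β : Fin n → ℝ) (i : Fin n) (ε c₀ ℓ θ : ℝ) (k : ℕ) (bb : Bool) :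
    Fin n → ℝ :=
  Function.update (fun j => β j - ε) i (c₀ + ℓ * (k + if bb then 1 - ε else θ - ε))

lemma prod_corner (α β : Fin n → ℝ) (i : Fin n) (ε c₀ ℓ θ : ℝ) (k : ℕ) (bb : Bool) :
    ∏ j, (hiC β i ε c₀ ℓ θ k bb j - loC α i ε c₀ ℓ θ k bb j) =
      ℓ * ((if bb then 1 - θ else θ) - ε) * ∏ j ∈ Finset.univ.erase i, (β j - α j - 2 * ε) := by
  rw [← Finset.mul_prod_erase _ _ (Finset.mem_univ i)]
  congr 1
  · unfold hiC loC
    rw [Function.update_self, Function.update_self]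
    cases bb <;> simp <;> ring
  · apply Finset.prod_congr rfl
    intro j hj
    have hji : j ≠ i := Finset.ne_of_mem_erase hj
    unfold hiC loC
    rw [Function.update_of_ne hji, Function.update_of_ne hji]
    ring

lemma mem_corner {α β : Fin n → ℝ} {i : Fin n} {ε c₀ ℓ θ : ℝ} {k : ℕ} {bb : Bool} (hℓ : 0 < ℓ)
    {x : Fin n → ℝ} (hx : x ∈ box (loC α i ε c₀ ℓ θ k bb) (hiC β i ε c₀ ℓ θ k bb)) :
    (∀ j, j ≠ i → α j + ε < x j ∧ x j < β j - ε) ∧
      (k:ℝ) + (if bb then θ else 0) < (x i - c₀) / ℓ ∧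
      (x i - c₀) / ℓ < k + (if bb then 1 - ε else θ - ε) := by
  rw [mem_box] at hx
  refine ⟨fun j hj => ?_, ?_, ?_⟩
  · have := hx j
    unfold loC hiC at this
    rwa [Function.update_of_ne hj, Function.update_of_ne hj] at this
  · have := (hx i).1
    unfold loC at this
    rw [Function.update_self] at this
    rw [lt_div_iff₀ hℓ]
    linarith
  · have := (hx i).2
    unfold hiC at this
    rw [Function.update_self] at this
    rw [div_lt_iff₀ hℓ]
    linarith

lemma corner_mem_inner {α β : Fin n → ℝ} {i : Fin n} {ε ℓ θ : ℝ} {k m : ℕ} {bb : Bool}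
    (hℓ : 0 < ℓ) (hmℓ : (m:ℝ) * ℓ = β i - α i - 2 * ε) (hk : k < m) (hθ0 : 0 ≤ θ) (hε : 0 < ε)
    (hθ1 : θ ≤ 1)
    {x : Fin n → ℝ}
    (hx : x ∈ box (loC α i ε (α i + ε) ℓ θ k bb) (hiC β i ε (α i + ε) ℓ θ k bb)) :
    ∀ j, α j + ε ≤ x j ∧ x j ≤ β j - ε := by
  obtain ⟨h1, h2, h3⟩ := mem_corner hℓ hx
  intro j
  by_cases hj : j = i
  · subst hj
    rw [lt_div_iff₀ hℓ] at h2
    rw [div_lt_iff₀ hℓ] at h3
    have e1 : (0:ℝ) ≤ (k + (if bb then θ else 0)) * ℓ := by
      have : (0:ℝ) ≤ (if bb then θ else 0) := by cases bb <;> simp [hθ0]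
      positivity
    have e2 : (k:ℝ) + 1 ≤ m := by exact_mod_cast hk
    have e3 : (if bb then 1 - ε else θ - ε) ≤ 1 := by cases bb <;> simp <;> linarith
    have e4 : ((k:ℝ) + (if bb then 1 - ε else θ - ε)) * ℓ ≤ m * ℓ :=
      mul_le_mul_of_nonneg_right (by linarith) hℓ.le
    constructor <;> linarith
  · exact ⟨(h1 j hj).1.le, (h1 j hj).2.le⟩

lemma corner_disjoint {α β : Fin n → ℝ} {i : Fin n} {ε c₀ ℓ θ : ℝ} {k l : ℕ} {bb bb' : Bool}
    (hℓ : 0 < ℓ) (hθ0 : 0 ≤ θ) (hε : 0 < ε) (hθ1 : θ ≤ 1) (hkl : ¬ (k = l ∧ bb = bb')) :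
    Disjoint (box (loC α i ε c₀ ℓ θ k bb) (hiC β i ε c₀ ℓ θ k bb))
      (box (loC α i ε c₀ ℓ θ l bb') (hiC β i ε c₀ ℓ θ l bb')) := by
  rw [Set.disjoint_left]
  intro x hx hx'
  obtain ⟨-, h2, h3⟩ := mem_corner hℓ hx
  obtain ⟨-, h2', h3'⟩ := mem_corner hℓ hx'
  set y := (x i - c₀) / ℓ
  have hk0 : (k:ℝ) < y ∧ y < k + 1 := by
    cases bb <;> simp at h2 h3 <;> constructor <;> linarith
  have hl0 : (l:ℝ) < y ∧ y < l + 1 := by
    cases bb' <;> simp at h2' h3' <;> constructor <;> linarith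
  have hkl' : k = l := by
    have h1 : (k:ℝ) < l + 1 := by linarith [hk0.1, hl0.2]
    have h2 : (l:ℝ) < k + 1 := by linarith [hk0.2, hl0.1]
    have h1' : k < l + 1 := by exact_mod_cast h1
    have h2' : l < k + 1 := by exact_mod_cast h2
    omega
  subst hkl'
  apply hkl
  refine ⟨rfl, ?_⟩
  cases bb <;> cases bb' <;> simp at h2 h3 h2' h3' ⊢ <;> linarith

set_option maxHeartbeats 1000000 in
theorem split_step {R : ℝ} {a : Fin n → ℝ} {i : Fin n} {b c : ℝ} (hb : b < a i) (hc : a i < c)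
    (hK : ∀ y, b ≤ y → y ≤ c → Kv R (Function.update a i y)) {α β : Fin n → ℝ} {ε δ : ℝ}
    (hε : 0 < ε) (hαβ : ∀ j, 2 * ε < β j - α j) (hθ1 : ε < (c - a i) / (c - b))
    (hθ2 : ε < (a i - b) / (c - b)) (hδ : 0 < δ) :
    ∃ (m : ℕ) (φ₀ : (Fin n → ℝ) → ℝ) (lo hi : Fin m × Bool → Fin n → ℝ),
      ContDiff ℝ 2 φ₀ ∧ (∀ x, x ∉ box α β → φ₀ =ᶠ[𝓝 x] fun _ => 0) ∧ (∀ x, |φ₀ x| ≤ δ) ∧
      (∀ x, Kv R (fun j => a j + d2 j φ₀ x)) ∧
      (∀ k j, lo k j < hi k j) ∧ (∀ k, box (lo k) (hi k) ⊆ box α β) ∧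
      (∀ k l, k ≠ l → Disjoint (box (lo k) (hi k)) (box (lo l) (hi l))) ∧
      (∀ k, ∀ x ∈ box (lo k) (hi k), (fun j => a j + d2 j φ₀ x) =
        Function.update a i (if k.2 then c else b)) ∧
      (∑ l : Fin m, ∏ j, (hi (l, false) j - lo (l, false) j) =
        ((c - a i) / (c - b) - ε) * ∏ j, (β j - α j - 2 * ε)) ∧
      (∑ l : Fin m, ∏ j, (hi (l, true) j - lo (l, true) j) =
        ((a i - b) / (c - b) - ε) * ∏ j, (β j - α j - 2 * ε)) := by
  -- notation
  obtain ⟨s, hs⟩ : ∃ s, s = a i - b := ⟨_, rfl⟩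
  obtain ⟨t, ht⟩ : ∃ t, t = c - a i := ⟨_, rfl⟩
  have hs0 : 0 < s := by linarith
  have ht0 : 0 < t := by linarith
  have hst : c - b = s + t := by linarith
  rw [← ht, hst] at hθ1
  rw [← hs, hst] at hθ2
  obtain ⟨θ, hθ⟩ : ∃ θ, θ = t / (s + t) := ⟨_, rfl⟩
  have hθs : s / (s + t) = 1 - θ := by rw [hθ]; field_simp; ring
  rw [← hθ] at hθ1
  rw [hθs] at hθ2
  rw [← ht, ← hs, hst, ← hθ, hθs]
  obtain ⟨H, P, g, hH, hP, hgc, hgb, hPb, hHb, hg1, hg2⟩ := exists_osc hs0 ht0 hε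
    (by rw [← hθ]; exact hθ1.le) (by rw [hθs]; exact hθ2.le)
  rw [← hθ] at hg1 hg2
  have hθ0 : 0 < θ := by rw [hθ]; positivity
  have hθ1' : θ ≤ 1 := by linarith
  obtain ⟨ψ, M, hψC, hψ01, hψ0, hψ1, hψM⟩ := exists_cutoff α β hε
  have hM0 : 0 ≤ M := (abs_nonneg _).trans (hψM (fun _ => 0) i).1
  -- the segment is compact in the open cone
  have hcomp : IsCompact ((fun y : ℝ => Function.update a i y) '' Icc b c) :=
    isCompact_Icc.image (by fun_prop)
  obtain ⟨ε₀, hε₀, hth⟩ := hcomp.exists_thickening_subset_open (isOpen_Kv R) (by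
    rintro _ ⟨y, hy, rfl⟩
    exact hK y hy.1 hy.2)
  -- the number of cells
  set w : ℝ := β i - α i with hw
  have hw0 : 2 * ε < w := hαβ i
  set W : ℝ := (s + t) * (w + 1) with hW
  have hW0 : 0 < W := by
    have : 0 < w := by linarith
    positivity
  obtain ⟨η, hη⟩ : ∃ η, η = min δ (ε₀ / (3 * (M + 1))) := ⟨_, rfl⟩
  have hη0 : 0 < η := by rw [hη]; positivity
  obtain ⟨m, hm⟩ := exists_nat_gt (w * W / η)
  have hm0 : (0:ℝ) < m := lt_of_le_of_lt (by
    have : 0 < w := by linarith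
    positivity) hm
  set ℓ : ℝ := (w - 2 * ε) / m with hℓ
  have hℓ0 : 0 < ℓ := div_pos (by linarith) hm0
  have hmℓ : (m:ℝ) * ℓ = w - 2 * ε := by rw [hℓ]; field_simp
  have hℓW : ℓ * W ≤ η := by
    rw [div_lt_iff₀ hη0] at hm
    rw [hℓ, div_mul_eq_mul_div, div_le_iff₀ hm0]
    have : (w - 2 * ε) * W ≤ w * W := by
      apply mul_le_mul_of_nonneg_right _ hW0.le
      linarith
    linarith
  set c₀ : ℝ := α i + ε with hc₀
  -- the oscillation
  set h : ℝ → ℝ := fun z => ℓ ^ 2 * H ((z - c₀) / ℓ) with hh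
  set h' : ℝ → ℝ := fun z => ℓ * P ((z - c₀) / ℓ) with hh'
  set h'' : ℝ → ℝ := fun z => g ((z - c₀) / ℓ) with hh''
  have hlin : ∀ z : ℝ, HasDerivAt (fun z : ℝ => (z - c₀) / ℓ) (1 / ℓ) z := fun z =>
    ((hasDerivAt_id z).sub_const c₀).div_const ℓ
  have hd1 : ∀ z, HasDerivAt h (h' z) z := by
    intro z
    have := ((hH ((z - c₀) / ℓ)).comp z (hlin z)).const_mul (ℓ ^ 2)
    refine this.congr_deriv ?_
    simp only [hh']
    field_simp
  have hd2 : ∀ z, HasDerivAt h' (h'' z) z := by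
    intro z
    have := ((hP ((z - c₀) / ℓ)).comp z (hlin z)).const_mul ℓ
    refine this.congr_deriv ?_
    simp only [hh'']
    field_simp
  have hh''c : Continuous h'' := hgc.comp (by fun_prop)
  have hhC : ContDiff ℝ 2 h := contDiff_two_of hd1 hd2 hh''c
  have hbd1 : ∀ z, |h' z| ≤ ℓ * W := by
    intro z
    simp only [hh']
    rw [abs_mul, abs_of_pos hℓ0]
    apply mul_le_mul_of_nonneg_left _ hℓ0.le
    refine (hPb _).trans ?_
    rw [hW]
    nlinarith
  have hbd0 : ∀ z, α i < z → z < β i → |h z| ≤ ℓ * W := by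
    intro z hz1 hz2
    simp only [hh]
    rw [abs_mul, abs_of_pos (by positivity : 0 < ℓ ^ 2)]
    have e1 := hHb ((z - c₀) / ℓ)
    have e2 : |z - c₀| ≤ w + 1 := by
      rw [abs_le]
      constructor <;> linarith
    calc ℓ ^ 2 * |H ((z - c₀) / ℓ)| ≤ ℓ ^ 2 * ((s + t) * |(z - c₀) / ℓ|) :=
          mul_le_mul_of_nonneg_left e1 (by positivity)
      _ = ℓ * ((s + t) * |z - c₀|) := by
          rw [abs_div, abs_of_pos hℓ0]
          field_simp
      _ ≤ ℓ * ((s + t) * (w + 1)) := by gcongr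
  -- the function
  set φ₀ : (Fin n → ℝ) → ℝ := fun x => ψ x * h (x i) with hφ₀
  have hφC : ContDiff ℝ 2 φ₀ := contDiff_mul_coord hψC hhC i
  have hφ0 : ∀ x, x ∉ box α β → φ₀ =ᶠ[𝓝 x] fun _ => 0 := by
    intro x hx
    filter_upwards [hψ0 x hx] with y hy
    simp only [hφ₀, hy, zero_mul]
  have hin : ∀ x, x ∈ box α β → |h (x i)| ≤ ℓ * W := fun x hx =>
    hbd0 _ (mem_box.1 hx i).1 (mem_box.1 hx i).2
  have hη3 : 3 * M * η < ε₀ := by
    have h1 : η ≤ ε₀ / (3 * (M + 1)) := by rw [hη]; exact min_le_right _ _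
    rw [le_div_iff₀ (by positivity)] at h1
    nlinarith
  refine ⟨m, φ₀, fun k => loC α i ε c₀ ℓ θ k.1 k.2, fun k => hiC β i ε c₀ ℓ θ k.1 k.2, hφC, hφ0,
    ?_, ?_, ?_, ?_, ?_, ?_, ?_, ?_⟩
  · intro x
    by_cases hx : x ∈ box α β
    · simp only [hφ₀]
      rw [abs_mul, abs_of_nonneg (hψ01 x).1]
      have h1 := hin x hx
      have h2 := (hψ01 x).2
      have h3 : η ≤ δ := by rw [hη]; exact min_le_left _ _
      have h4 := abs_nonneg (h (x i))
      have h5 := (hψ01 x).1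
      nlinarith
    · have := (hφ0 x hx).eq_of_nhds
      rw [this, abs_zero]
      exact hδ.le
  · intro x
    by_cases hx : x ∈ box α β
    · have hh''b := hgb ((x i - c₀) / ℓ)
      have hψx := hψ01 x
      have hmem : Function.update a i (a i + h'' (x i) * ψ x) ∈
          (fun y : ℝ => Function.update a i y) '' Icc b c := by
        refine ⟨_, ⟨?_, ?_⟩, rfl⟩
        · simp only [hh'']
          nlinarith
        · simp only [hh'']
          nlinarith
      apply hth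
      rw [Metric.mem_thickening_iff]
      refine ⟨_, hmem, ?_⟩
      rw [dist_pi_lt_iff hε₀]
      intro j
      have hM1 := (hψM x j).2
      have h1 := hin x hx
      have hMη : 0 ≤ M * η := by positivity
      by_cases hji : j = i
      · subst hji
        rw [Function.update_self, Real.dist_eq, d2_mul_coord_eq hψC hd1 hd2 hh''c]
        have h2 := hbd1 (x j)
        have h3 := (hψM x j).1
        have e1 : |h (x j) * d2 j ψ x| ≤ η * M := by
          rw [abs_mul]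
          exact mul_le_mul (h1.trans hℓW) hM1 (abs_nonneg _) hη0.le
        have e2 : |h' (x j) * d1 j ψ x| ≤ η * M := by
          rw [abs_mul]
          exact mul_le_mul (h2.trans hℓW) h3 (abs_nonneg _) hη0.le
        have e3 : a j + (h (x j) * d2 j ψ x + 2 * h' (x j) * d1 j ψ x + h'' (x j) * ψ x) -
            (a j + h'' (x j) * ψ x) = h (x j) * d2 j ψ x + 2 * (h' (x j) * d1 j ψ x) := by ring
        rw [e3]
        calc |h (x j) * d2 j ψ x + 2 * (h' (x j) * d1 j ψ x)|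
            ≤ |h (x j) * d2 j ψ x| + |2 * (h' (x j) * d1 j ψ x)| := abs_add_le _ _
          _ = |h (x j) * d2 j ψ x| + 2 * |h' (x j) * d1 j ψ x| := by
              rw [abs_mul 2, abs_of_pos (by norm_num : (0:ℝ) < 2)]
          _ ≤ η * M + 2 * (η * M) := by linarith
          _ < ε₀ := by linarith
      · rw [Function.update_of_ne hji, Real.dist_eq, d2_mul_coord_ne hψC hhC hji]
        have e3 : a j + h (x i) * d2 j ψ x - a j = h (x i) * d2 j ψ x := by ring
        rw [e3, abs_mul]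
        have : |h (x i)| * |d2 j ψ x| ≤ η * M :=
          mul_le_mul (h1.trans hℓW) hM1 (abs_nonneg _) hη0.le
        linarith
    · have h1 : (fun j => a j + d2 j φ₀ x) = Function.update a i (a i) := by
        rw [Function.update_eq_self]
        funext j
        rw [d2_congr (hφ0 x hx), d2_zero, add_zero]
      rw [h1]
      exact hK _ hb.le hc.le
  · rintro ⟨k, bb⟩ j
    simp only
    by_cases hji : j = i
    · subst hji
      unfold loC hiC
      rw [Function.update_self, Function.update_self]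
      have h3 : (0:ℝ) < (if bb then 1 - ε else θ - ε) - (if bb then θ else 0) := by
        cases bb <;> simp <;> linarith
      have h4 := mul_pos hℓ0 h3
      linarith
    · unfold loC hiC
      rw [Function.update_of_ne hji, Function.update_of_ne hji]
      linarith [hαβ j]
  · rintro ⟨k, bb⟩ x hx
    have h1 := corner_mem_inner hℓ0 hmℓ k.2 hθ0.le hε hθ1' hx
    rw [mem_box]
    intro j
    exact ⟨by linarith [(h1 j).1], by linarith [(h1 j).2]⟩
  · rintro ⟨k, bb⟩ ⟨l, bb'⟩ hkl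
    refine corner_disjoint hℓ0 hθ0.le hε hθ1' ?_
    rintro ⟨h1, h2⟩
    exact hkl (Prod.ext (Fin.ext h1) h2)
  · rintro ⟨k, bb⟩ x hx
    have h1 := corner_mem_inner hℓ0 hmℓ k.2 hθ0.le hε hθ1' hx
    have h2 := hψ1 x h1
    obtain ⟨-, h3, h4⟩ := mem_corner hℓ0 hx
    have hψx : ψ x = 1 := h2.eq_of_nhds
    have hd2ψ : ∀ j, d2 j ψ x = 0 := by
      intro j
      rw [d2_congr h2]
      unfold d2
      have : fderiv ℝ (fun _ : Fin n → ℝ => (1:ℝ)) = fun _ => 0 := by
        funext y; simp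
      rw [this]; simp
    have hd1ψ : ∀ j, d1 j ψ x = 0 := by
      intro j
      unfold d1
      rw [h2.fderiv_eq]
      simp
    have hgx : h'' (x i) = (if bb then c else b) - a i := by
      simp only [hh'']
      cases bb
      · simp only [Bool.false_eq_true, if_false] at h3 h4 ⊢
        rw [hg1 (k:ℕ) _ (by push_cast; linarith) (by push_cast; linarith)]
        linarith
      · simp only [if_true] at h3 h4 ⊢
        rw [hg2 (k:ℕ) _ (by push_cast; linarith) (by push_cast; linarith)]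
        linarith
    funext j
    by_cases hji : j = i
    · subst hji
      rw [Function.update_self, d2_mul_coord_eq hψC hd1 hd2 hh''c, hd2ψ, hd1ψ, hψx, hgx]
      ring
    · rw [Function.update_of_ne hji, d2_mul_coord_ne hψC hhC hji, hd2ψ]
      ring
  · simp only [prod_corner]
    rw [Finset.sum_const, Finset.card_univ, Fintype.card_fin, nsmul_eq_mul]
    rw [← Finset.mul_prod_erase Finset.univ (fun j => β j - α j - 2 * ε) (Finset.mem_univ i)]
    simp only [Bool.false_eq_true, if_false]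
    have : (m:ℝ) * (ℓ * (θ - ε) * ∏ j ∈ Finset.univ.erase i, (β j - α j - 2 * ε)) =
      (m * ℓ) * (θ - ε) * ∏ j ∈ Finset.univ.erase i, (β j - α j - 2 * ε) := by ring
    rw [this, hmℓ, hw]
    ring
  · simp only [prod_corner]
    rw [Finset.sum_const, Finset.card_univ, Fintype.card_fin, nsmul_eq_mul]
    rw [← Finset.mul_prod_erase Finset.univ (fun j => β j - α j - 2 * ε) (Finset.mem_univ i)]
    simp only [if_true]
    have : (m:ℝ) * (ℓ * (1 - θ - ε) * ∏ j ∈ Finset.univ.erase i, (β j - α j - 2 * ε)) =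
      (m * ℓ) * (1 - θ - ε) * ∏ j ∈ Finset.univ.erase i, (β j - α j - 2 * ε) := by ring
    rw [this, hmℓ, hw]
    ring

end Pool.Agent.W5h42.Hess
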