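import Pool.Agent.W5h42.Hess.Realize
import Pool.Agent.W5h42.Hess.Chain3

/-!
# Auxiliary facts: second derivative test, Pucci operators on diagonals, asymptotics
-/

set_option autoImplicit false

namespace Pool.Agent.W5h42.Hess

open Set Filter Topology MeasureTheory

/-- necessary second order condition at a local minimum -/
lemma second_nonneg {g g' : ℝ → ℝ} {c : ℝ} (h1 : ∀ᶠ r in 𝓝 (0:ℝ), HasDerivAt g (g' r) r)
    (h2 : HasDerivAt g' c 0) (hmin : IsLocalMin g 0) : 0 ≤ c := by
  by_contra hc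
  push Not at hc
  have h0 : HasDerivAt g (g' 0) 0 := h1.self_of_nhds
  have hg0 : g' 0 = 0 := hmin.hasDerivAt_eq_zero h0
  have hd : deriv g =ᶠ[𝓝 0] g' := by
    filter_upwards [h1] with r hr
    exact hr.deriv
  have h3 : deriv (deriv g) 0 = c := by
    rw [hd.deriv_eq]
    exact h2.deriv
  have hmax : IsLocalMax g 0 :=
    isLocalMax_of_deriv_deriv_neg (by rw [h3]; exact hc) (by rw [h0.deriv, hg0])
      h0.continuousAt
  have hconst : g =ᶠ[𝓝 0] fun _ => g 0 := by
    filter_upwards [hmin, hmax] with r hr1 hr2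
    exact le_antisymm hr2 hr1
  have hd0 : deriv g =ᶠ[𝓝 0] fun _ => 0 := by
    have := hconst.deriv
    filter_upwards [this] with r hr
    rw [hr]
    simp
  have h4 : deriv (deriv g) 0 = 0 := by
    rw [hd0.deriv_eq]
    simp
  rw [h3] at h4
  linarith

/-- derivatives along a line of a function of class `C²` at a point -/
lemma line_contDiffAt {F : Type*} [NormedAddCommGroup F] [NormedSpace ℝ F] {φ : F → ℝ} {x e : F}
    (h : ContDiffAt ℝ 2 φ x) :
    (∀ᶠ r in 𝓝 (0:ℝ), HasDerivAt (fun r : ℝ => φ (x + r • e)) (fderiv ℝ φ (x + r • e) e) r) ∧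
      HasDerivAt (fun r : ℝ => fderiv ℝ φ (x + r • e) e) (fderiv ℝ (fderiv ℝ φ) x e e) 0 := by
  have hl : ∀ r : ℝ, HasDerivAt (fun r : ℝ => x + r • e) e r := by
    intro r
    simpa using ((hasDerivAt_id r).smul_const e).const_add x
  have h0 : x + (0:ℝ) • e = x := by simp
  constructor
  · have h1 : ∀ᶠ y in 𝓝 x, DifferentiableAt ℝ φ y := by
      have := h.eventually (by simp)
      filter_upwards [this] with y hy
      exact hy.differentiableAt (by norm_num)
    have h2 : Tendsto (fun r : ℝ => x + r • e) (𝓝 0) (𝓝 x) := by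
      have := (hl 0).continuousAt.tendsto
      rwa [h0] at this
    filter_upwards [h2.eventually h1] with r hr
    exact hr.hasFDerivAt.comp_hasDerivAt r (hl r)
  · have h3 : HasFDerivAt (fderiv ℝ φ) (fderiv ℝ (fderiv ℝ φ) x) (x + (0:ℝ) • e) := by
      rw [h0]
      have := (h.fderiv_right (m := 1) (by norm_num)).differentiableAt (by norm_num)
      exact this.hasFDerivAt
    have h4 := h3.comp_hasDerivAt (0:ℝ) (hl 0)
    have h5 := h4.clm_apply (hasDerivAt_const (0:ℝ) e)
    simpa using h5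

/-- the weighted diagonal sum is at least the Pucci minimal operator -/
lemma pucci_le {n : ℕ} {X : Matrix (Fin n) (Fin n) ℝ} (hX : X.IsHermitian) {lam Lam : ℝ}
    {d : Fin n → ℝ} (hd : ∀ j, lam ≤ d j ∧ d j ≤ Lam) :
    ∑ i, (lam * max (hX.eigenvalues i) 0 + Lam * min (hX.eigenvalues i) 0) ≤ ∑ j, d j * X j j := by
  have hXjj : ∀ j, X j j = ∑ k, hX.eigenvalues k * (hX.eigenvectorBasis k) j ^ 2 := by
    intro j
    have h := hX.spectral_theorem
    have h2 := congrFun (congrFun h j) j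
    rw [h2, Unitary.conjStarAlgAut_apply, Matrix.mul_apply]
    apply Finset.sum_congr rfl
    intro k _
    rw [Matrix.mul_diagonal]
    simp only [Matrix.star_apply, Matrix.IsHermitian.eigenvectorUnitary_apply, Function.comp_apply]
    simp
    ring
  have hnorm : ∀ k, ∑ j, (hX.eigenvectorBasis k) j ^ 2 = 1 := by
    intro k
    have h1 := hX.eigenvectorBasis.orthonormal.1 k
    have h2 := EuclideanSpace.norm_sq_eq (hX.eigenvectorBasis k)
    rw [h1] at h2
    simpa using h2.symm
  have hw : ∀ k, lam ≤ ∑ j, d j * (hX.eigenvectorBasis k) j ^ 2 ∧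
      ∑ j, d j * (hX.eigenvectorBasis k) j ^ 2 ≤ Lam := by
    intro k
    constructor
    · calc lam = ∑ j, lam * (hX.eigenvectorBasis k) j ^ 2 := by
            rw [← Finset.mul_sum, hnorm, mul_one]
        _ ≤ _ := Finset.sum_le_sum fun j _ =>
            mul_le_mul_of_nonneg_right (hd j).1 (sq_nonneg _)
    · calc _ ≤ ∑ j, Lam * (hX.eigenvectorBasis k) j ^ 2 := Finset.sum_le_sum fun j _ =>
            mul_le_mul_of_nonneg_right (hd j).2 (sq_nonneg _)
        _ = Lam := by rw [← Finset.mul_sum, hnorm, mul_one]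
  have hsum : ∑ j, d j * X j j =
      ∑ k, hX.eigenvalues k * ∑ j, d j * (hX.eigenvectorBasis k) j ^ 2 := by
    simp_rw [hXjj, Finset.mul_sum]
    rw [Finset.sum_comm]
    apply Finset.sum_congr rfl
    intro k _
    apply Finset.sum_congr rfl
    intro j _
    ring
  rw [hsum]
  apply Finset.sum_le_sum
  intro k _
  obtain ⟨h1, h2⟩ := hw k
  rcases le_total 0 (hX.eigenvalues k) with h | h
  · rw [max_eq_left h, min_eq_right h]
    nlinarith
  · rw [max_eq_right h, min_eq_left h]
    nlinarith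

/-- the weighted diagonal sum is at most the Pucci maximal operator -/
lemma le_pucci {n : ℕ} {X : Matrix (Fin n) (Fin n) ℝ} (hX : X.IsHermitian) {lam Lam : ℝ}
    {d : Fin n → ℝ} (hd : ∀ j, lam ≤ d j ∧ d j ≤ Lam) :
    ∑ j, d j * X j j ≤ ∑ i, (Lam * max (hX.eigenvalues i) 0 + lam * min (hX.eigenvalues i) 0) := by
  have h : ∑ i, (-Lam * max (hX.eigenvalues i) 0 + -lam * min (hX.eigenvalues i) 0) ≤
      ∑ j, -d j * X j j := pucci_le hX (lam := -Lam) (Lam := -lam) (d := fun j => -d j)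
    (fun j => ⟨neg_le_neg (hd j).2, neg_le_neg (hd j).1⟩)
  have e1 : ∑ i, (-Lam * max (hX.eigenvalues i) 0 + -lam * min (hX.eigenvalues i) 0) =
      -∑ i, (Lam * max (hX.eigenvalues i) 0 + lam * min (hX.eigenvalues i) 0) := by
    rw [← Finset.sum_neg_distrib]
    apply Finset.sum_congr rfl
    intro i _
    ring
  have e2 : ∑ j, -d j * X j j = -∑ j, d j * X j j := by
    rw [← Finset.sum_neg_distrib]
    apply Finset.sum_congr rfl
    intro i _
    ring
  rw [e1, e2] at h
  linarith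

/-- realising a multiset by a vector -/
lemma exists_vector {n : ℕ} {s : Multiset ℝ} (hs : Multiset.card s = n) :
    ∃ a : Fin n → ℝ, Finset.univ.val.map a = s := by
  obtain ⟨l, rfl⟩ := Quot.exists_rep s
  have hl : l.length = n := by simpa using hs
  subst hl
  refine ⟨l.get, ?_⟩
  rw [Fin.univ_val_map, List.ofFn_get]
  rfl

lemma card_st0 {n : ℕ} (hn : 3 ≤ n) : Multiset.card (st0 n) = n := by
  unfold st0 st
  simp
  omega

lemma abs_le_of_mem_st0 {n : ℕ} {x : ℝ} (hx : x ∈ st0 n) : |x| ≤ 1 := by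
  unfold st0 st at hx
  rw [Multiset.mem_add, Multiset.mem_map, Multiset.mem_map] at hx
  rcases hx with ⟨k, _, rfl⟩ | ⟨k, _, rfl⟩
  · rw [abs_of_pos (by positivity), div_le_one (by positivity)]
    exact one_le_pow₀ (by norm_num)
  · rw [abs_neg, abs_of_pos (by positivity), div_le_one (by positivity)]
    exact one_le_pow₀ (by norm_num)

/-- comparison of the exponents -/
lemma exponent_le {ε e K : ℝ} (hε : ε ≤ 1 / 2) (he : 0 < e)
    (h : ∀ m : ℕ, (1 - ε) ^ m ≤ K * (2:ℝ) ^ (-((m:ℝ) * (e / 2)))) : e ≤ 6 * ε := by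
  have h1 : (1 - ε) * (2:ℝ) ^ (e / 2) ≤ 1 := by
    by_contra hcon
    push Not at hcon
    obtain ⟨m, hm⟩ := pow_unbounded_of_one_lt K hcon
    have h2 := h m
    have h3 : (0:ℝ) < (2:ℝ) ^ ((m:ℝ) * (e / 2)) := Real.rpow_pos_of_pos (by norm_num) _
    rw [Real.rpow_neg (by norm_num), ← div_eq_mul_inv, le_div_iff₀ h3] at h2
    rw [mul_pow, ← Real.rpow_natCast ((2:ℝ) ^ (e / 2)) m, ← Real.rpow_mul (by norm_num),
      mul_comm (e / 2)] at hm
    linarith
  have h2 : (2:ℝ) ^ (e / 2) = Real.exp (Real.log 2 * (e / 2)) := by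
    rw [Real.rpow_def_of_pos (by norm_num)]
  have h3 := Real.add_one_le_exp (Real.log 2 * (e / 2))
  rw [← h2] at h3
  have h4 := Real.log_two_gt_d9
  have h5 : (0.69:ℝ) * (e / 2) ≤ Real.log 2 * (e / 2) :=
    mul_le_mul_of_nonneg_right (by linarith) (by linarith)
  have h6 : (1 - ε) * (0.69 * (e / 2) + 1) ≤ 1 :=
    (mul_le_mul_of_nonneg_left (by linarith) (by linarith)).trans h1
  nlinarith

end Pool.Agent.W5h42.Hess
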